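import Mathlib
import Pool.Agent.MP_36f78e_lc.H44.Junk

/-!
Certificates after a restriction whose set of free variables is spread.
-/

set_option linter.unusedSectionVars false

namespace Pool.Agent.MP_36f78e_lc.H6

open Finset Pool.Agent.MP_36f78e_lc.H44
open scoped BigOperators

variable {ι Ω : Type} [Fintype ι] [DecidableEq ι] [Fintype Ω] [Nonempty Ω]

/-- Small sets are contained in the random set with exponentially small probability. -/
def Spread (O : Ω → Finset ι) (ρ : ℝ) (v : ℕ) : Prop :=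
  ∀ Y : Finset ι, Y.card ≤ v → 𝔼 ω, (if Y ⊆ O ω then 1 else 0 : ℝ) ≤ ρ ^ Y.card

/-- Keep `u` on `O` and copy `J` outside. -/
def res (O J u : Finset ι) : Finset ι := u ∩ O ∪ J \ O

/-- Every point has a certificate of size at most `D`. -/
def Cert (D : ℕ) (f : Finset ι → Bool) : Prop :=
  ∀ u, ∃ C : Finset ι, C.card ≤ D ∧ ∀ u', u' ∩ C = u ∩ C → f u' = f u

lemma agree {u u' C : Finset ι} : u' ∩ C = u ∩ C ↔ ∀ i ∈ C, (i ∈ u' ↔ i ∈ u) := by
  simp only [Finset.ext_iff, mem_inter]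
  exact forall_congr' fun i => by tauto

lemma agree' {u u' C : Finset ι} : u' \ C = u \ C ↔ ∀ i ∉ C, (i ∈ u' ↔ i ∈ u) := by
  simp only [Finset.ext_iff, mem_sdiff]
  exact forall_congr' fun i => by tauto

lemma mem_res {O J u : Finset ι} {i : ι} : i ∈ res O J u ↔ (i ∈ u ∧ i ∈ O) ∨ (i ∈ J ∧ i ∉ O) := by
  simp [res]

lemma res_agree (O J : Finset ι) {u u' C : Finset ι} (h : u' ∩ C = u ∩ C) :
    res O J u' ∩ C = res O J u ∩ C :=
  agree.2 fun i hi => by rw [mem_res, mem_res, agree.1 h i hi]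

lemma inter_agree (O : Finset ι) {u u' C : Finset ι} (h : u' ∩ C = u ∩ C) :
    u' ∩ O ∩ C = u ∩ O ∩ C :=
  agree.2 fun i hi => by rw [mem_inter, mem_inter, agree.1 h i hi]

lemma Cert.comp {D : ℕ} {f : Finset ι → Bool} (h : Cert D f) (φ : Finset ι → Finset ι)
    (hφ : ∀ u u' C, u' ∩ C = u ∩ C → φ u' ∩ C = φ u ∩ C) : Cert D fun u => f (φ u) := fun u =>
  (h (φ u)).imp fun _ hC => ⟨hC.1, fun _ hu => hC.2 _ (hφ _ _ _ hu)⟩

/-! ### Sampling -/

section BQ

/-- The probability that the sampler, guessing the values, stays inside `O`. -/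
noncomputable def smp (μ : Finset ι → ι → ℝ) (O : Finset ι) : ℕ → Finset ι → Finset ι → ℝ
  | 0, C, _ => if C ⊆ O then 1 else 0
  | t + 1, C, h => ∑ i ∈ Cᶜ, μ h i *
      (smp μ O t (insert i C) h + smp μ O t (insert i C) (insert i h))

variable {μ : Finset ι → ι → ℝ}

lemma smp_nonneg (h0 : ∀ h i, 0 ≤ μ h i) (O : Finset ι) (t : ℕ) (C h : Finset ι) :
    0 ≤ smp μ O t C h := by
  induction t generalizing C h with
  | zero => unfold smp; split_ifs <;> norm_num
  | succ t ih => exact sum_nonneg fun i _ => mul_nonneg (h0 _ _) (add_nonneg (ih _ _) (ih _ _))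

lemma smp_ge (h0 : ∀ h i, 0 ≤ μ h i) {O x : Finset ι} {η : ℝ} (hη : 0 ≤ η) {v : ℕ}
    (h : ∀ C ⊆ O, C.card ≤ v → η ≤ ∑ i ∈ O \ C, μ (x ∩ C) i) (t : ℕ) (C : Finset ι)
    (hC : C ⊆ O) (ht : C.card + t ≤ v) : η ^ t ≤ smp μ O t C (x ∩ C) := by
  induction t generalizing C with
  | zero => simp [smp, hC]
  | succ t ih =>
    calc η ^ (t + 1) = η * η ^ t := pow_succ' _ _
      _ ≤ (∑ i ∈ O \ C, μ (x ∩ C) i) * η ^ t :=
          mul_le_mul_of_nonneg_right (h C hC (by omega)) (pow_nonneg hη _)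
      _ ≤ ∑ i ∈ O \ C, μ (x ∩ C) i * (smp μ O t (insert i C) (x ∩ C) +
            smp μ O t (insert i C) (insert i (x ∩ C))) := by
          rw [sum_mul]
          refine sum_le_sum fun i hi => mul_le_mul_of_nonneg_left ?_ (h0 _ _)
          have h1 := ih (insert i C) (insert_subset (mem_sdiff.1 hi).1 hC) (by
            have := card_insert_le i C
            omega)
          by_cases hx : i ∈ x
          · rw [inter_insert_of_mem hx] at h1
            exact h1.trans (le_add_of_nonneg_left (smp_nonneg h0 _ _ _ _))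
          · rw [inter_insert_of_notMem hx] at h1
            exact h1.trans (le_add_of_nonneg_right (smp_nonneg h0 _ _ _ _))
      _ ≤ _ := sum_le_sum_of_subset_of_nonneg (fun i hi => mem_compl.2 (mem_sdiff.1 hi).2)
          fun i _ _ => mul_nonneg (h0 _ _)
            (add_nonneg (smp_nonneg h0 _ _ _ _) (smp_nonneg h0 _ _ _ _))

lemma expect_smp_le (h0 : ∀ h i, 0 ≤ μ h i) (h1 : ∀ h, ∑ i, μ h i ≤ 1) {O : Ω → Finset ι} {ρ : ℝ}
    (hρ : 0 ≤ ρ) {v : ℕ} (hO : Spread O ρ v) (t : ℕ) (C h : Finset ι) (ht : C.card + t ≤ v) :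
    𝔼 ω, smp μ (O ω) t C h ≤ ρ ^ C.card * (2 * ρ) ^ t := by
  induction t generalizing C h with
  | zero => simpa [smp] using hO C ht
  | succ t ih =>
    simp only [smp]
    rw [expect_sum_comm]
    calc _ ≤ ∑ i ∈ Cᶜ, μ h i * (ρ ^ C.card * (2 * ρ) ^ (t + 1)) := by
          refine sum_le_sum fun i hi => ?_
          rw [← mul_expect, expect_add_distrib]
          refine mul_le_mul_of_nonneg_left ?_ (h0 _ _)
          have e : (insert i C).card = C.card + 1 := card_insert_of_notMem (mem_compl.1 hi)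
          have a1 := ih (insert i C) h (by omega)
          have a2 := ih (insert i C) (insert i h) (by omega)
          rw [e] at a1 a2
          refine (add_le_add a1 a2).trans (le_of_eq ?_)
          ring
      _ ≤ 1 * (ρ ^ C.card * (2 * ρ) ^ (t + 1)) := by
          rw [← sum_mul]
          exact mul_le_mul_of_nonneg_right ((sum_le_sum_of_subset_of_nonneg (subset_univ _)
            fun i _ _ => h0 _ _).trans (h1 h)) (by positivity)
      _ = _ := one_mul _

/-- Some point with a large value has no small certificate of a value above one third. -/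
def BadQ (F : Finset ι → ℝ) (k : ℕ) (O : Finset ι) : Prop :=
  ∃ u, 2 / 3 ≤ F (u ∩ O) ∧ ∀ C : Finset ι, C.card ≤ k → ∃ u', u' ∩ C = u ∩ C ∧ F (u' ∩ O) ≤ 1 / 3

open Classical in
theorem badQ_le (F : Finset ι → ℝ) (h0 : ∀ h i, 0 ≤ μ h i) (h1 : ∀ h, ∑ i, μ h i ≤ 1) {η : ℝ}
    (hη : 0 < η)
    (hg : ∀ h x x' E : Finset ι, 2 / 3 ≤ F x → F x' ≤ 1 / 3 → x \ E = h \ E → x' \ E = h \ E →
      η ≤ ∑ i ∈ E, μ h i)
    {O : Ω → Finset ι} {ρ : ℝ} (hρ : 0 ≤ ρ) {v k : ℕ} (hO : Spread O ρ v) (hk : k ≤ v)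
    (hs : 4 * ρ ≤ η) : 𝔼 ω, (if BadQ F k (O ω) then 1 else 0 : ℝ) ≤ (1 / 2) ^ k := by
  have key : ∀ ω, (if BadQ F k (O ω) then 1 else 0 : ℝ) * η ^ k ≤ smp μ (O ω) k ∅ ∅ := by
    intro ω
    split_ifs with hb
    · obtain ⟨u, hu, hb⟩ := hb
      rw [one_mul]
      have := smp_ge h0 (O := O ω) (x := u) hη.le (v := k) (fun C hC hk => ?_) k ∅
        (empty_subset _) (by simp)
      · simpa using this
      obtain ⟨u', a1, a2⟩ := hb C hk
      refine hg _ _ _ _ hu a2 (agree'.2 fun i hi => ?_) (agree'.2 fun i hi => ?_)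
      · have := @hC i
        simp only [mem_sdiff, mem_inter] at hi ⊢
        tauto
      · have := @hC i
        have := agree.1 a1 i
        simp only [mem_sdiff, mem_inter] at hi ⊢
        tauto
    · rw [zero_mul]
      exact smp_nonneg h0 _ _ _ _
  have h2 := (expect_le_expect fun ω _ => key ω).trans
    (expect_smp_le h0 h1 hρ hO k ∅ ∅ (by simpa using hk))
  rw [← expect_mul, card_empty, pow_zero, one_mul] at h2
  have h3 : (2 * ρ) ^ k ≤ (1 / 2) ^ k * η ^ k := by
    rw [← mul_pow]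
    exact pow_le_pow_left₀ (by positivity) (by linarith) _
  exact le_of_mul_le_mul_right (h2.trans h3) (pow_pos hη k)

end BQ

/-! ### Switching -/

section SW

variable {p : ℝ}

/-- The probability that the random set agrees with `u` outside `C`. -/
noncomputable def mu (p : ℝ) (C u : Finset ι) : ℝ := ∏ i ∈ Cᶜ, if i ∈ u then p else 1 - p

lemma mu_nonneg (h0 : 0 ≤ p) (h1 : p ≤ 1) (C u : Finset ι) : 0 ≤ mu p C u :=
  prod_nonneg fun i _ => by split_ifs <;> linarith

lemma EJ_agree (C u : Finset ι) :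
    EJ p (fun J => if J \ C = u \ C then 1 else 0) = mu p C u := by
  have h := Fintype.prod_add (fun i : ι => p * if i ∈ C ∨ i ∈ u then 1 else 0)
    fun i => (1 - p) * if i ∈ C ∨ i ∉ u then 1 else 0
  have e : mu p C u = ∏ i, ((p * if i ∈ C ∨ i ∈ u then 1 else 0) +
      (1 - p) * if i ∈ C ∨ i ∉ u then 1 else 0) := by
    rw [mu, ← prod_subset (subset_univ Cᶜ) fun i _ hi => by
      have : i ∈ C := by simpa using hi
      simp [this]]
    refine prod_congr rfl fun i hi => ?_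
    have : i ∉ C := by simpa using hi
    by_cases hu : i ∈ u <;> simp [this, hu]
  rw [e, h]
  refine sum_congr rfl fun J _ => ?_
  rw [prod_mul_distrib, prod_mul_distrib, prod_boole, prod_boole, wt,
    ← prod_mul_prod_compl J, prod_congr rfl fun i hi => if_pos hi,
    prod_congr (s₁ := Jᶜ) rfl fun i hi => if_neg (mem_compl.1 hi)]
  beta_reduce
  by_cases hJ : J \ C = u \ C
  · have h1 := agree'.1 hJ
    rw [if_pos hJ, if_pos, if_pos]
    · ring
    · intro i hi
      have := h1 i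
      rw [mem_compl] at hi
      tauto
    · intro i hi
      have := h1 i
      tauto
  · rw [if_neg hJ]
    by_cases a : ∀ i ∈ J, i ∈ C ∨ i ∈ u
    · rw [if_neg (c := ∀ i ∈ Jᶜ, _)]
      · ring
      · intro b
        refine hJ (agree'.2 fun i hi => ?_)
        have := a i
        have := b i
        rw [mem_compl] at this
        tauto
    · rw [if_neg a]
      ring

lemma mu_le (h0 : 0 ≤ p) (h1 : p ≤ 1 / 2) {C D u u' : Finset ι} (hD : Disjoint C D)
    (h : u' \ D = u \ D) : p ^ D.card * mu p (C ∪ D) u' ≤ mu p C u := by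
  have e : Cᶜ = D ∪ (C ∪ D)ᶜ := by
    ext i
    have : i ∈ C → i ∉ D := fun a => disjoint_left.1 hD a
    simp only [mem_compl, mem_union]
    tauto
  rw [mu, mu, e, prod_union (disjoint_left.2 fun i hi => by simp [hi])]
  have e2 : ∏ i ∈ (C ∪ D)ᶜ, (if i ∈ u' then p else 1 - p) =
      ∏ i ∈ (C ∪ D)ᶜ, if i ∈ u then p else 1 - p := prod_congr rfl fun i hi => by
    have : i ∉ D := fun a => by simp [a] at hi
    simp only [agree'.1 h i this]
  rw [e2]
  refine mul_le_mul_of_nonneg_right ?_ (prod_nonneg fun i _ => by split_ifs <;> linarith)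
  rw [← prod_const]
  exact prod_le_prod (fun _ _ => h0) fun i _ => by split_ifs <;> linarith

/-- The number of decodings. -/
noncomputable def dec (T : Finset ι → Finset ι) (O J : Finset ι) : ℕ → Finset ι → Finset ι → ℝ
  | 0, C, u => if C ⊆ O ∧ J \ C = u \ C then 1 else 0
  | t + 1, C, u => ∑ D ∈ (T u \ C).powerset.erase ∅, ∑ π ∈ D.powerset,
      dec T O J t (C ∪ D) (u \ D ∪ π)

lemma dec_nonneg (T : Finset ι → Finset ι) (O J : Finset ι) (t : ℕ) (C u : Finset ι) :
    0 ≤ dec T O J t C u := by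
  induction t generalizing C u with
  | zero => unfold dec; split_ifs <;> norm_num
  | succ t ih => exact sum_nonneg fun _ _ => sum_nonneg fun _ _ => ih _ _

lemma expect_dec_le (h0 : 0 < p) (h1 : p ≤ 1 / 2) {T : Finset ι → Finset ι} {k : ℕ}
    (hT : ∀ u, (T u).card ≤ k) {O : Ω → Finset ι} {ρ : ℝ} (hρ : 0 ≤ ρ) {v : ℕ}
    (hO : Spread O ρ v) (hs : (1 + 2 * ρ / p) ^ k ≤ 3 / 2) (t : ℕ) (C u : Finset ι)
    (ht : C.card + k * t ≤ v) :
    𝔼 ω, EJ p (fun J => dec T (O ω) J t C u) ≤ ρ ^ C.card * mu p C u * (1 / 2) ^ t := by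
  have hp1 : p ≤ 1 := by linarith
  induction t generalizing C u with
  | zero =>
    have e : ∀ ω, EJ p (fun J => dec T (O ω) J 0 C u) =
        (if C ⊆ O ω then 1 else 0) * mu p C u := fun ω => by
      rw [← EJ_agree, ← EJ_mul]
      congr 1
      funext J
      by_cases a : C ⊆ O ω <;> simp [dec, a]
    simp only [e]
    rw [← expect_mul, pow_zero, mul_one]
    exact mul_le_mul_of_nonneg_right (hO C (by simpa using ht)) (mu_nonneg h0.le hp1 _ _)
  | succ t ih =>
    simp only [dec, EJ_sum]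
    rw [expect_sum_comm]
    have hm := mu_nonneg h0.le hp1 C u
    calc _ ≤ ∑ D ∈ (T u \ C).powerset.erase ∅,
          (2 * ρ / p) ^ D.card * (ρ ^ C.card * mu p C u * (1 / 2) ^ t) := by
          refine sum_le_sum fun D hD => ?_
          have hD1 : D ⊆ T u \ C := mem_powerset.1 (mem_of_mem_erase hD)
          have hd : Disjoint C D := disjoint_left.2 fun i hi hi' => (mem_sdiff.1 (hD1 hi')).2 hi
          have hc : D.card ≤ k := (card_le_card (hD1.trans sdiff_subset)).trans (hT u)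
          rw [expect_sum_comm]
          refine (sum_le_card_nsmul _ _ ((ρ / p) ^ D.card * (ρ ^ C.card * mu p C u * (1 / 2) ^ t))
            fun π hπ => ?_).trans (le_of_eq ?_)
          · refine (ih _ _ (by rw [card_union_of_disjoint hd]; nlinarith)).trans ?_
            have a := mu_le h0.le h1 hd (u := u) (u' := u \ D ∪ π) (agree'.2 fun i hi => by
              have : i ∉ π := fun b => hi (mem_powerset.1 hπ b)
              simp [hi, this])
            rw [← le_div_iff₀' (pow_pos h0 _)] at a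
            rw [card_union_of_disjoint hd, pow_add, div_pow ρ]
            calc _ ≤ ρ ^ C.card * ρ ^ D.card * (mu p C u / p ^ D.card) * (1 / 2) ^ t := by gcongr
              _ = _ := by ring
          · rw [card_powerset, nsmul_eq_mul, mul_div_assoc, mul_pow]
            push_cast
            ring
      _ ≤ 1 / 2 * (ρ ^ C.card * mu p C u * (1 / 2) ^ t) := by
          rw [← sum_mul]
          refine mul_le_mul_of_nonneg_right ?_ (by positivity)
          have a := add_sum_erase (T u \ C).powerset (fun D => (2 * ρ / p) ^ D.card)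
            (empty_mem_powerset _)
          have b := prod_one_add (f := fun _ => 2 * ρ / p) (T u \ C)
          simp only [prod_const] at b
          have c : (1 + 2 * ρ / p) ^ (T u \ C).card ≤ (1 + 2 * ρ / p) ^ k :=
            pow_le_pow_right₀ (le_add_of_nonneg_right (by positivity))
              ((card_le_card sdiff_subset).trans (hT u))
          simp only [card_empty, pow_zero] at a
          linarith
      _ = _ := by ring

lemma dec_ge {f : Finset ι → Prop} {c T : Finset ι → Finset ι} {idx : Finset ι → ℕ} {k : ℕ}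
    (hc : ∀ a, (c a).card ≤ k) (hf : ∀ a x, f a → x ∩ c a = a ∩ c a → f x)
    (hT : ∀ u a, f a → u ∩ c a = a ∩ c a → (∀ a', f a' → u ∩ c a' = a' ∩ c a' → idx a ≤ idx a') →
      T u = c a) {O J x : Finset ι} (hx : x \ O = J \ O) (hn : ¬ f x) (t : ℕ) (C : Finset ι)
    (hC : C ⊆ O) (hb : ∀ C' : Finset ι, C'.card ≤ C.card + k * t →
      ∃ x', x' \ O = J \ O ∧ x' ∩ C' = x ∩ C' ∧ f x') :
    ∃ u, u \ O = J \ O ∧ u ∩ C = x ∩ C ∧ 1 ≤ dec T O J t C u := by
  induction t generalizing C with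
  | zero =>
    refine ⟨x ∩ C ∪ J \ C, agree'.2 fun i hi => ?_, agree.2 fun i hi => by simp [hi], ?_⟩
    · have : i ∉ C := fun a => hi (hC a)
      simp [this]
    · rw [dec, if_pos ⟨hC, agree'.2 fun i hi => by simp [hi]⟩]
  | succ t ih =>
    obtain ⟨a, ⟨ha, y, y1, y2, y3⟩, hmin⟩ := exists_minimalFor_of_wellFoundedLT
      (fun a => f a ∧ ∃ y, y \ O = J \ O ∧ y ∩ C = x ∩ C ∧ y ∩ c a = a ∩ c a) idx (by
        obtain ⟨x', b1, b2, b3⟩ := hb C (Nat.le_add_right _ _)
        exact ⟨x', b3, x', b1, b2, rfl⟩)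
    obtain ⟨D, hD⟩ : ∃ D, D = (c a ∩ O) \ C := ⟨_, rfl⟩
    have mD : ∀ i, i ∈ D ↔ (i ∈ c a ∧ i ∈ O) ∧ i ∉ C := fun i => by simp [hD]
    have hDc : D.card ≤ k := (card_le_card fun i hi => ((mD i).1 hi).1.1).trans (hc a)
    obtain ⟨u', u1, u2, u3⟩ := ih (C ∪ D) (union_subset hC fun i hi => ((mD i).1 hi).1.2)
      fun C' hC' => hb C' (hC'.trans (by have := card_union_le C D; nlinarith))
    have hx' := agree'.1 hx
    have y1' := agree'.1 y1
    have y2' := agree.1 y2
    have y3' := agree.1 y3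
    have u1' := agree'.1 u1
    have u2' := agree.1 u2
    have v1 : (u' \ D ∪ a ∩ D) \ O = J \ O := agree'.2 fun i hi => by
      have : i ∉ D := fun b => hi ((mD i).1 b).1.2
      simp [this, u1' i hi]
    have v2 : (u' \ D ∪ a ∩ D) ∩ C = x ∩ C := agree.2 fun i hi => by
      have : i ∉ D := fun b => ((mD i).1 b).2 hi
      simp [this, u2' i (mem_union_left _ hi)]
    have v3 : (u' \ D ∪ a ∩ D) ∩ c a = a ∩ c a := agree.2 fun i hi => by
      by_cases b : i ∈ D
      · simp [b]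
      · rw [← y3' i hi]
        by_cases b1 : i ∈ C
        · rw [agree.1 v2 i b1, y2' i b1]
        · have b2 : i ∉ O := fun b2 => b ((mD i).2 ⟨⟨hi, b2⟩, b1⟩)
          rw [agree'.1 v1 i b2, y1' i b2]
    refine ⟨u' \ D ∪ a ∩ D, v1, v2, ?_⟩
    have hTu := hT _ a ha v3 fun a' b1 b2 => by
      by_contra hlt
      have := hmin ⟨b1, _, v1, v2, b2⟩ (not_le.1 hlt).le
      omega
    have hD0 : D ≠ ∅ := fun e => hn (hf a x ha (agree.2 fun i hi => by
      rw [← y3' i hi]
      by_cases b1 : i ∈ C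
      · rw [y2' i b1]
      · have b2 : i ∉ O := fun b2 => by
          have := (mD i).2 ⟨⟨hi, b2⟩, b1⟩
          simp [e] at this
        rw [hx' i b2, y1' i b2]))
    rw [dec, hTu]
    have e : (u' \ D ∪ a ∩ D) \ D ∪ u' ∩ D = u' := by
      ext i
      by_cases b : i ∈ D <;> simp [b]
    refine le_trans ?_ (single_le_sum (f := fun D' => ∑ π ∈ D'.powerset,
      dec T O J t (C ∪ D') ((u' \ D ∪ a ∩ D) \ D' ∪ π))
      (fun _ _ => sum_nonneg fun _ _ => dec_nonneg _ _ _ _ _ _) (a := D)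
      (mem_erase.2 ⟨hD0, mem_powerset.2 fun i hi =>
        mem_sdiff.2 ⟨((mD i).1 hi).1.1, ((mD i).1 hi).2⟩⟩))
    refine le_trans ?_ (single_le_sum (f := fun π =>
      dec T O J t (C ∪ D) ((u' \ D ∪ a ∩ D) \ D ∪ π))
      (fun _ _ => dec_nonneg _ _ _ _ _ _) (a := u' ∩ D) (mem_powerset.2 inter_subset_right))
    simp only [e]
    exact u3

/-- Some point where `f` fails has no small certificate. -/
def BadS (f : Finset ι → Prop) (s : ℕ) (O J : Finset ι) : Prop :=
  ∃ u, ¬ f (res O J u) ∧ ∀ C : Finset ι, C.card ≤ s → ∃ u', u' ∩ C = u ∩ C ∧ f (res O J u')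

open Classical in
theorem badS_le (h0 : 0 < p) (h1 : p ≤ 1 / 2) {f : Finset ι → Prop} {k : ℕ}
    (hf : ∀ a, f a → ∃ C : Finset ι, C.card ≤ k ∧ ∀ x, x ∩ C = a ∩ C → f x)
    {O : Ω → Finset ι} {ρ : ℝ} (hρ : 0 ≤ ρ) {v t : ℕ} (hO : Spread O ρ v) (hk : k * t ≤ v)
    (hs : (1 + 2 * ρ / p) ^ k ≤ 3 / 2) :
    𝔼 ω, EJ p (fun J => if BadS f (k * t) (O ω) J then 1 else 0) ≤ (1 / 2) ^ t := by
  have hp1 : p ≤ 1 := by linarith
  obtain ⟨c, hc, hfc⟩ : ∃ c : Finset ι → Finset ι, (∀ a, (c a).card ≤ k) ∧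
      ∀ a x, f a → x ∩ c a = a ∩ c a → f x := by
    have : ∀ a, ∃ C : Finset ι, C.card ≤ k ∧ ∀ x, f a → x ∩ C = a ∩ C → f x := fun a => by
      by_cases h : f a
      · exact (hf a h).imp fun C hC => ⟨hC.1, fun x _ => hC.2 x⟩
      · exact ⟨∅, by simp, fun x h' => absurd h' h⟩
    choose c a b using this
    exact ⟨c, a, b⟩
  obtain ⟨idx, hidx⟩ : ∃ idx : Finset ι → ℕ, Function.Injective idx := Countable.exists_injective_nat _
  obtain ⟨T, hT1, hT⟩ : ∃ T : Finset ι → Finset ι, (∀ u, (T u).card ≤ k) ∧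
      ∀ u a, f a → u ∩ c a = a ∩ c a → (∀ a', f a' → u ∩ c a' = a' ∩ c a' → idx a ≤ idx a') →
        T u = c a := by
    have : ∀ u, ∃ a0, ∀ a, f a → u ∩ c a = a ∩ c a →
        (∀ a', f a' → u ∩ c a' = a' ∩ c a' → idx a ≤ idx a') → a0 = a := fun u => by
      by_cases h : ∃ a, f a ∧ u ∩ c a = a ∩ c a ∧
          ∀ a', f a' → u ∩ c a' = a' ∩ c a' → idx a ≤ idx a'
      · obtain ⟨a0, b1, b2, b3⟩ := h
        exact ⟨a0, fun a c1 c2 c3 => hidx (le_antisymm (b3 a c1 c2) (c3 a0 b1 b2))⟩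
      · exact ⟨∅, fun a c1 c2 c3 => absurd ⟨a, c1, c2, c3⟩ h⟩
    choose g hg using this
    exact ⟨fun u => c (g u), fun u => hc _, fun u a c1 c2 c3 => congrArg c (hg u a c1 c2 c3)⟩
  have key : ∀ ω J, (if BadS f (k * t) (O ω) J then 1 else 0 : ℝ) ≤
      ∑ u, dec T (O ω) J t ∅ u := by
    intro ω J
    split_ifs with hb
    · obtain ⟨u, hu, hb⟩ := hb
      have r : ∀ w, res (O ω) J w \ O ω = J \ O ω := fun w =>
        agree'.2 fun i hi => by simp [mem_res, hi]
      obtain ⟨w, -, -, hw⟩ := dec_ge hc hfc hT (r u) hu t ∅ (empty_subset _) fun C' hC' => by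
        obtain ⟨u', b1, b2⟩ := hb C' (by simpa using hC')
        exact ⟨_, r u', res_agree _ _ b1, b2⟩
      exact hw.trans (single_le_sum (f := fun u => dec T (O ω) J t ∅ u)
        (fun _ _ => dec_nonneg _ _ _ _ _ _) (mem_univ w))
    · exact sum_nonneg fun _ _ => dec_nonneg _ _ _ _ _ _
  refine (expect_le_expect fun ω _ => EJ_mono h0.le hp1 (key ω)).trans ?_
  simp only [EJ_sum]
  rw [expect_sum_comm]
  refine (sum_le_sum fun u _ => expect_dec_le h0 h1 hT1 hρ hO hs t ∅ u (by simpa using hk)).trans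
    (le_of_eq ?_)
  simp only [card_empty, pow_zero, one_mul, mu, compl_empty]
  rw [← sum_mul]
  have := sum_wt (Z := ι) (p := p)
  simp only [wt] at this
  rw [this, one_mul]

end SW

end Pool.Agent.MP_36f78e_lc.H6
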