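import Mathlib
import Pool.Agent.MP_36f78e_lc.H24.Cl.Defs

/-!
Size bounds for verifiers, and answers to promise problems with classical witnesses.
-/

namespace Pool.Agent.MP_36f78e_lc.H6

open Pool.Agent.MP_36f78e_lc.H24.Cl

/-- At most `n` witness qubits, at most `n` oracle calls, each on at most `n / 2` input wires. -/
def Small (V : Verifier) (n : ℕ) : Prop :=
  V.p ≤ n ∧ V.queries ≤ n ∧ ∀ l t, Sum.inr (l, t) ∈ V.gates → 2 * l.length ≤ n

/-- The bit `b` is one if some classical witness is accepted with probability at least two thirds,
and zero if every classical witness is accepted with probability at most one third. -/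
def Ans (V : Verifier) (A : List Bool → Bool) (b : Bool) : Prop :=
  ((∃ y, 2 / 3 ≤ V.accProb A (Pi.single y 1)) → b = true) ∧
    ((∀ y, V.accProb A (Pi.single y 1) ≤ 1 / 3) → b = false)

/-- The number of witness qubits for inputs of length `n`. -/
def NN (n : ℕ) : ℕ := (n + 22) ^ 83

/-- The acceptance probability of the two-query test on the part of the oracle that is named by
the bit `b` and the input `x`. -/
noncomputable def tacc (A : List Bool → Bool) (b : Bool) (x : List Bool)
    (w : (Fin (NN x.length) → Bool) → ℂ) : ℝ :=
  (test (NN x.length)).accProb (fun s => A (false :: b :: (x ++ s))) w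

end Pool.Agent.MP_36f78e_lc.H6
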