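import Mathlib
import Pool.Agent.MP_36f78e_lc.H24.Cl.Test
import Pool.Agent.MP_36f78e_lc.H44.Junk

/-!
Fourier supports of intersections, and quadratic form bounds for the two-query test.
-/

set_option linter.unusedSectionVars false

namespace Pool.Agent.MP_36f78e_lc.H6

open Finset Matrix Pool.Agent.MP_36f78e_lc.H24 Pool.Agent.MP_36f78e_lc.H24.Cl
  Pool.Agent.MP_36f78e_lc.H44

variable {n : ℕ}

/-- The Fourier transform of the indicator of `R` vanishes outside `G`. -/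
def Supp (G R : Finset (Fin n → Bool)) : Prop := ∀ e ∉ G, ∑ z ∈ R, sgn e z = 0

/-- Sum modulo two. -/
def xr (e e' : Fin n → Bool) : Fin n → Bool := fun i => xor (e i) (e' i)

lemma sgn_comm (e z : Fin n → Bool) : sgn e z = sgn z e := by simp only [sgn, and_comm]

lemma sgn_mul (e e' z : Fin n → Bool) : sgn e z * sgn e' z = sgn (xr e e') z := by
  rw [sgn, sgn, sgn, ← prod_mul_distrib]
  refine prod_congr rfl fun i _ => ?_
  unfold xr
  cases e i <;> cases e' i <;> cases z i <;> simp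

lemma sum_sgn (e : Fin n → Bool) : ∑ z, sgn e z = if e = fun _ => false then 2 ^ n else 0 := by
  have := Fintype.prod_sum (fun (i : Fin n) (b : Bool) =>
    (if e i = true ∧ b = true then -1 else 1 : ℂ))
  unfold sgn
  rw [← this]
  split_ifs with h
  · subst h
    simp
  · obtain ⟨i, hi⟩ := Function.ne_iff.1 h
    exact prod_eq_zero (mem_univ i) (by simp at hi; simp [hi])

lemma xr_eq (z z' : Fin n → Bool) : (xr z z' = fun _ => false) ↔ z = z' := by
  simp only [funext_iff, xr]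
  exact forall_congr' fun i => by cases z i <;> cases z' i <;> simp

lemma supp_univ : Supp {fun _ => false} (univ : Finset (Fin n → Bool)) := fun e he => by
  rw [sum_sgn, if_neg (by simpa using he)]

lemma supp_inter {G G' R R' : Finset (Fin n → Bool)} (h : Supp G R) (h' : Supp G' R') :
    Supp (image₂ xr G G') (R ∩ R') := by
  intro e he
  have inv : ∀ z, (2 : ℂ) ^ n * (if z ∈ R then 1 else 0) =
      ∑ g ∈ G, (∑ z' ∈ R, sgn g z') * sgn g z := fun z => by
    rw [sum_subset (subset_univ G) fun g _ hg => by rw [h g hg, zero_mul]]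
    simp only [sum_mul]
    rw [sum_comm]
    have : ∀ z', ∑ g, sgn g z' * sgn g z = if z' = z then (2 : ℂ) ^ n else 0 := fun z' => by
      rw [sum_congr rfl fun g _ => by rw [sgn_comm g z', sgn_comm g z, sgn_mul], sum_sgn]
      simp only [xr_eq]
    simp only [this, sum_ite_eq', mul_ite, mul_one, mul_zero]
  have h2 : (2 : ℂ) ^ n * ∑ z ∈ R ∩ R', sgn e z = 0 := by
    rw [inter_comm, ← sum_ite_mem, mul_sum]
    calc _ = ∑ z ∈ R', ∑ g ∈ G, (∑ z' ∈ R, sgn g z') * sgn (xr g e) z :=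
          sum_congr rfl fun z _ => by
            simp only [← sgn_mul, ← mul_assoc]
            rw [← sum_mul, ← inv]
            split_ifs <;> simp
      _ = 0 := by
          rw [sum_comm]
          refine sum_eq_zero fun g hg => ?_
          rw [← mul_sum, h' _ fun a => he ?_, mul_zero]
          refine mem_image₂.2 ⟨g, hg, _, a, funext fun i => ?_⟩
          simp [xr]
  simpa using h2

/-- The weight that the vector with Fourier coefficients `a` on `G` puts on `S`. -/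
noncomputable def qf (G S : Finset (Fin n → Bool)) (a : (Fin n → Bool) → ℂ) : ℝ :=
  ∑ z ∈ S, ‖∑ e ∈ G, a e * Hn n e z‖ ^ 2

/-- The squared norm of the coefficients. -/
noncomputable def n2 (G : Finset (Fin n → Bool)) (a : (Fin n → Bool) → ℂ) : ℝ := ∑ e ∈ G, ‖a e‖ ^ 2

variable {G S X : Finset (Fin n → Bool)} {a : (Fin n → Bool) → ℂ}

lemma n2_nonneg : 0 ≤ n2 G a := sum_nonneg fun _ _ => sq_nonneg _

lemma qf_mono (h : S ⊆ X) : qf G S a ≤ qf G X a :=
  sum_le_sum_of_subset_of_nonneg h fun _ _ _ => sq_nonneg _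

lemma qf_union (S X : Finset (Fin n → Bool)) : qf G (S ∪ X) a ≤ qf G S a + qf G X a := by
  have := sum_union_inter (s₁ := S) (s₂ := X) (f := fun z => ‖∑ e ∈ G, a e * Hn n e z‖ ^ 2)
  have h : 0 ≤ ∑ z ∈ S ∩ X, ‖∑ e ∈ G, a e * Hn n e z‖ ^ 2 := sum_nonneg fun _ _ => sq_nonneg _
  unfold qf
  linarith

lemma cs (x : ℂ) : x * star x = ((‖x‖ ^ 2 : ℝ) : ℂ) := by
  rw [Complex.star_def, Complex.mul_conj']; push_cast; rfl

lemma expand (c : (Fin n → Bool) → ℝ) :
    ((∑ z ∈ X, c z * ‖∑ e ∈ G, a e * Hn n e z‖ ^ 2 : ℝ) : ℂ) = ∑ e ∈ G, ∑ e' ∈ G,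
      a e * star (a e') * ∑ z ∈ X, (c z : ℂ) * (Hn n e z * star (Hn n e' z)) := by
  have e3 : ∀ z, ((c z * ‖∑ e ∈ G, a e * Hn n e z‖ ^ 2 : ℝ) : ℂ) = ∑ e ∈ G, ∑ e' ∈ G,
      a e * star (a e') * ((c z : ℂ) * (Hn n e z * star (Hn n e' z))) := fun z => by
    rw [Complex.ofReal_mul, ← cs]
    simp only [star_sum, star_mul']
    rw [sum_mul_sum]
    simp only [mul_sum]
    exact sum_congr rfl fun e _ => sum_congr rfl fun e' _ => by ring
  rw [Complex.ofReal_sum]
  simp only [e3, mul_sum]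
  rw [sum_comm]
  exact sum_congr rfl fun e _ => sum_comm

lemma qf_univ : qf G univ a = n2 G a := by
  have := expand (X := univ) (G := G) (a := a) fun _ => 1
  simp only [one_mul, Complex.ofReal_one, Hn_orth, mul_ite, mul_one, mul_zero, sum_ite_eq] at this
  rw [sum_congr (s₁ := G) rfl fun e he => by rw [if_pos he, cs], ← Complex.ofReal_sum] at this
  exact_mod_cast this

lemma qf_small : qf G S a ≤ S.card * (G.card / 2 ^ n) * n2 G a := by
  rw [mul_assoc, ← nsmul_eq_mul]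
  refine sum_le_card_nsmul _ _ _ fun z _ => ?_
  calc _ ≤ (∑ e ∈ G, ‖Hn n e z‖ * ‖a e‖) ^ 2 := by
        refine pow_le_pow_left₀ (norm_nonneg _) ((norm_sum_le _ _).trans (le_of_eq ?_)) 2
        simp only [norm_mul, mul_comm]
    _ ≤ (∑ e ∈ G, ‖Hn n e z‖ ^ 2) * ∑ e ∈ G, ‖a e‖ ^ 2 := sum_mul_sq_le_sq_mul_sq _ _ _
    _ = _ := by simp only [norm_Hn_sq, sum_const, nsmul_eq_mul, n2]; ring

variable {ι : Type} [Fintype ι] [DecidableEq ι]

/-- The squared Frobenius norm of the fluctuation of a random subset of `X`. -/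
noncomputable def frob (G X : Finset (Fin n → Bool)) (g : (Fin n → Bool) → ι) (J : Finset ι) : ℝ :=
  ∑ e ∈ G, ∑ e' ∈ G, ‖∑ z ∈ X, (((if g z ∈ J then 1 else 0) - 1 / 4 : ℝ) : ℂ) *
    (Hn n e z * star (Hn n e' z))‖ ^ 2

lemma frob_nonneg (g : (Fin n → Bool) → ι) (J : Finset ι) : 0 ≤ frob G X g J :=
  sum_nonneg fun _ _ => sum_nonneg fun _ _ => sq_nonneg _

lemma qf_noise {g : (Fin n → Bool) → ι} {J : Finset ι} {δ : ℝ} (hδ : 0 ≤ δ)
    (h : frob G X g J ≤ δ ^ 2) :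
    qf G (X.filter fun z => g z ∈ J) a ≤ 1 / 4 * qf G X a + δ * n2 G a := by
  have e := expand (X := X) (G := G) (a := a) fun z => (if g z ∈ J then 1 else 0) - 1 / 4
  have e1 : ∑ z ∈ X, ((if g z ∈ J then 1 else 0) - 1 / 4) * ‖∑ e ∈ G, a e * Hn n e z‖ ^ 2 =
      qf G (X.filter fun z => g z ∈ J) a - 1 / 4 * qf G X a := by
    simp only [sub_mul, sum_sub_distrib, qf, sum_filter, mul_sum, ite_mul, one_mul, zero_mul]
  rw [e1] at e
  generalize qf G (X.filter fun z => g z ∈ J) a = A at *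
  generalize qf G X a = B at *
  unfold frob at h
  generalize hM : (fun e e' => ∑ z ∈ X, (((if g z ∈ J then 1 else 0) - 1 / 4 : ℝ) : ℂ) *
    (Hn n e z * star (Hn n e' z))) = M
  have hM' : ∀ e e', ∑ z ∈ X, (((if g z ∈ J then 1 else 0) - 1 / 4 : ℝ) : ℂ) *
    (Hn n e z * star (Hn n e' z)) = M e e' := fun e e' => by rw [← hM]
  simp only [hM'] at e h
  have h1 : A - 1 / 4 * B ≤ ∑ x ∈ G ×ˢ G, ‖a x.1‖ * ‖a x.2‖ * ‖M x.1 x.2‖ := by
    refine (le_abs_self _).trans ?_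
    rw [← Real.norm_eq_abs, ← Complex.norm_real, e, sum_product]
    refine (norm_sum_le _ _).trans (sum_le_sum fun _ _ => (norm_sum_le _ _).trans (le_of_eq ?_))
    simp only [norm_mul, norm_star]
  have h2 := sum_mul_sq_le_sq_mul_sq (G ×ˢ G) (fun x => ‖a x.1‖ * ‖a x.2‖) fun x => ‖M x.1 x.2‖
  have h3 : ∑ x ∈ G ×ˢ G, (‖a x.1‖ * ‖a x.2‖) ^ 2 = n2 G a ^ 2 := by
    rw [sum_product, sq (n2 G a), n2, sum_mul_sum]
    simp only [mul_pow]
  rw [h3, sum_product (f := fun x => ‖M x.1 x.2‖ ^ 2)] at h2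
  have h4 := abs_le_of_sq_le_sq' (b := δ * n2 G a) (h2.trans (by
    rw [mul_pow, mul_comm]
    exact mul_le_mul_of_nonneg_right h (sq_nonneg _))) (mul_nonneg hδ n2_nonneg)
  linarith [h4.2]

lemma EJ_var_real {Z : Type} [DecidableEq Z] {g : Z → ι} (hg : Function.Injective g) (p : ℝ)
    (X : Finset Z) (c : Z → ℝ) :
    EJ p (fun J => (∑ z ∈ X, ((if g z ∈ J then 1 else 0) - p) * c z) ^ 2) ≤ ∑ z ∈ X, c z ^ 2 := by
  have e1 : (fun J : Finset ι => (∑ z ∈ X, ((if g z ∈ J then 1 else 0) - p) * c z) ^ 2) =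
      fun J => ∑ z ∈ X, ∑ z' ∈ X, (c z * c z' * (if ({g z, g z'} : Finset ι) ⊆ J then 1 else 0) +
        (-p * c z * c z' * (if g z ∈ J then 1 else 0) +
        (-p * c z * c z' * (if g z' ∈ J then 1 else 0) + p ^ 2 * c z * c z'))) := by
    funext J
    rw [sq, sum_mul_sum]
    refine sum_congr rfl fun z _ => sum_congr rfl fun z' _ => ?_
    by_cases h : g z ∈ J <;> by_cases h' : g z' ∈ J <;> simp [h, h', insert_subset_iff] <;> ring
  rw [e1]
  simp only [EJ_sum, EJ_add, EJ_mul, EJ_subset, EJ_mem, EJ_const]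
  refine sum_le_sum fun z hz => ?_
  rw [sum_eq_single z (fun z' _ h => ?_) fun h => absurd hz h]
  · simp only [mem_singleton, insert_eq_of_mem, card_singleton]
    nlinarith [sq_nonneg (c z), sq_nonneg ((p - 1 / 2) * c z)]
  · rw [card_pair fun b => h (hg b).symm]
    ring

lemma EJ_frob {g : (Fin n → Bool) → ι} (hg : Function.Injective g) :
    EJ (1 / 4) (frob G X g) ≤ G.card ^ 2 / 2 ^ n := by
  have e : ∀ a : ℂ, ‖a‖ ^ 2 = a.re ^ 2 + a.im ^ 2 := fun a => by
    rw [Complex.sq_norm, Complex.normSq_apply]; ring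
  unfold frob
  rw [EJ_sum, sq, mul_div_assoc, ← nsmul_eq_mul]
  refine sum_le_card_nsmul _ _ _ fun x _ => ?_
  rw [EJ_sum, div_eq_mul_one_div (G.card : ℝ), ← nsmul_eq_mul]
  refine sum_le_card_nsmul _ _ _ fun x' _ => ?_
  simp only [e, Complex.re_sum, Complex.im_sum, Complex.re_ofReal_mul, Complex.im_ofReal_mul]
  rw [EJ_add]
  refine (add_le_add (EJ_var_real hg _ X _) (EJ_var_real hg _ X _)).trans ?_
  rw [← sum_add_distrib]
  simp only [← e, norm_mul, norm_star, mul_pow, norm_Hn_sq, sum_const, nsmul_eq_mul]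
  have : (X.card : ℝ) ≤ 2 ^ n := by
    have := card_le_univ X
    simp only [Fintype.card_pi, Fintype.card_bool, prod_const, card_univ, Fintype.card_fin] at this
    exact_mod_cast this
  rw [← mul_assoc]
  refine mul_le_of_le_one_left (by positivity) ?_
  rwa [mul_one_div, div_le_one (by positivity)]

lemma sound (h : ∀ a, qf G S a ≤ 1 / 3 * n2 G a) (w : (Fin n → Bool) → ℂ) (hw : IsState w) :
    ∑ e ∈ G, ‖∑ z ∈ S, Hn n e z * w z‖ ^ 2 ≤ 1 / 3 := by
  obtain ⟨x, hx⟩ : ∃ x : (Fin n → Bool) → ℂ, x = fun e => ∑ z ∈ S, Hn n e z * w z := ⟨_, rfl⟩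
  obtain ⟨y, hy⟩ : ∃ y : (Fin n → Bool) → ℂ, y = fun z => ∑ e ∈ G, star (x e) * Hn n e z :=
    ⟨_, rfl⟩
  obtain ⟨T, hT⟩ : ∃ T, T = ∑ e ∈ G, ‖x e‖ ^ 2 := ⟨_, rfl⟩
  have hgoal : ∑ e ∈ G, ‖∑ z ∈ S, Hn n e z * w z‖ ^ 2 = T := by rw [hT, hx]
  rw [hgoal]
  have hT0 : 0 ≤ T := hT ▸ sum_nonneg fun _ _ => sq_nonneg _
  have e1 : (T : ℂ) = ∑ z ∈ S, y z * w z := by
    rw [hT, hy]
    simp only [sum_mul]
    rw [sum_comm, Complex.ofReal_sum]
    refine sum_congr rfl fun e _ => ?_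
    rw [← cs, mul_comm]
    conv_lhs => rw [hx]
    conv_rhs => rw [hx]
    simp only [mul_sum, mul_assoc]
  have h1 : T ^ 2 ≤ ∑ z ∈ S, ‖y z‖ ^ 2 := by
    have h2 : T ≤ ∑ z ∈ S, ‖y z‖ * ‖w z‖ := by
      calc T = ‖(T : ℂ)‖ := by rw [Complex.norm_real, Real.norm_of_nonneg hT0]
        _ ≤ _ := by
          rw [e1]
          exact (norm_sum_le _ _).trans (le_of_eq (by simp only [norm_mul]))
    calc _ ≤ _ := pow_le_pow_left₀ hT0 h2 2
      _ ≤ (∑ z ∈ S, ‖y z‖ ^ 2) * ∑ z ∈ S, ‖w z‖ ^ 2 := sum_mul_sq_le_sq_mul_sq _ _ _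
      _ ≤ _ := mul_le_of_le_one_right (sum_nonneg fun _ _ => sq_nonneg _)
          ((sum_le_sum_of_subset_of_nonneg (subset_univ _) fun _ _ _ => sq_nonneg _).trans hw.le)
  have h2 := h fun e => star (x e)
  simp only [qf, n2, norm_star, ← hT] at h2
  rw [hy] at h1
  nlinarith

lemma complete {R : Finset (Fin n → Bool)} (hR : R.Nonempty) (hS : R ⊆ S) (h : Supp G R) :
    ∑ e ∈ G, ‖∑ z ∈ S, Hn n e z * subsetState R z‖ ^ 2 = 1 := by
  have e1 : ∀ e, ∑ z ∈ S, Hn n e z * subsetState R z = (Hn n *ᵥ subsetState R) e := fun e =>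
    sum_subset (subset_univ _) fun z _ hz => by
      have : z ∉ R := fun b => hz (hS b)
      simp [subsetState, this]
  have e2 : ∀ e ∉ G, ∑ z ∈ S, Hn n e z * subsetState R z = 0 := fun e he => by
    rw [← sum_subset hS fun z _ hz => by simp [subsetState, hz],
      sum_congr rfl fun z hz => by rw [subsetState, if_pos hz, Hn_eq], ← sum_mul,
      ← sum_div, h e he]
    simp
  rw [sum_subset (subset_univ _) fun e _ he => by rw [e2 e he]; simp]
  simp only [e1]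
  have h1 := nr_unitary (Hn n) (mem_unitaryGroup_iff'.1 Hn_unitary) (subsetState R)
  have h2 : nsq (subsetState R) = 1 := isState_subset hR
  change nsq (Hn n *ᵥ subsetState R) = 1
  rw [← nr_sq, h1, nr_sq, h2]

end Pool.Agent.MP_36f78e_lc.H6
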