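import Mathlib
import Pool.Agent.MP_36f78e_lc.H24.Cl.Fam
import Pool.Agent.MP_36f78e_lc.H6.Defs
import Pool.Agent.MP_36f78e_lc.H6.Cert
import Pool.Agent.MP_36f78e_lc.H6.Form

/-!
Spread families: conditioning, products, and the family for each input length.
-/

set_option linter.unusedSectionVars false

namespace Pool.Agent.MP_36f78e_lc.H6

open Finset Pool.Agent.MP_36f78e_lc.H24.Cl
open scoped BigOperators

section

variable {Z Ω : Type} [Fintype Z] [DecidableEq Z] [Fintype Ω] [Nonempty Ω]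

lemma Spread.mono {O : Ω → Finset Z} {ρ ρ' : ℝ} {v v' : ℕ} (h : Spread O ρ v) (h0 : 0 ≤ ρ)
    (h1 : ρ ≤ ρ') (h2 : v' ≤ v) : Spread O ρ' v' :=
  fun Y hY => (h Y (hY.trans h2)).trans (pow_le_pow_left₀ h0 h1 _)

lemma spread_empty {ρ : ℝ} (h0 : 0 ≤ ρ) (v : ℕ) : Spread (fun _ : Ω => (∅ : Finset Z)) ρ v := by
  intro Y _
  rw [expect_const univ_nonempty]
  split_ifs with h
  · simp [subset_empty.1 h]
  · positivity

lemma spread_cond {O : Ω → Finset Z} {ρ β : ℝ} {v : ℕ} (h : Spread O ρ (v + 1)) (z : Z)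
    (hβ : 0 < β) (hρ : β ≤ ρ) (hz : β ≤ 𝔼 ω, (if z ∈ O ω then 1 else 0 : ℝ)) :
    Nonempty {ω // z ∈ O ω} ∧
      Spread (fun ω : {ω // z ∈ O ω} => (O ω).erase z) (ρ * ρ / β) v := by
  have hρ0 : 0 < ρ := hβ.trans_le hρ
  have hN : (0 : ℝ) < Fintype.card Ω := by exact_mod_cast Fintype.card_pos
  rw [Fintype.expect_eq_sum_div_card, sum_boole, le_div_iff₀ hN, ← Fintype.card_subtype] at hz
  have hc : (0 : ℝ) < Fintype.card {ω // z ∈ O ω} := lt_of_lt_of_le (by positivity) hz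
  have hne : Nonempty {ω // z ∈ O ω} := Fintype.card_pos_iff.1 (by exact_mod_cast hc)
  refine ⟨hne, fun Y hY => ?_⟩
  by_cases h1 : z ∈ Y
  · rw [expect_eq_zero fun ω _ => if_neg fun a => by simpa using a h1]
    positivity
  rcases Y.eq_empty_or_nonempty with rfl | h2
  · simp [expect_const univ_nonempty]
  have h3 := h (insert z Y) (by rw [card_insert_of_notMem h1]; omega)
  rw [Fintype.expect_eq_sum_div_card, div_le_iff₀ hN, card_insert_of_notMem h1] at h3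
  have h4 : ∑ ω : {ω // z ∈ O ω}, (if Y ⊆ (O ω).erase z then 1 else 0 : ℝ) =
      ∑ ω, if insert z Y ⊆ O ω then 1 else 0 := by
    rw [← sum_subtype (univ.filter fun ω => z ∈ O ω) (by simp)
      fun ω => (if Y ⊆ (O ω).erase z then 1 else 0 : ℝ), sum_filter]
    refine sum_congr rfl fun ω _ => ?_
    by_cases a : z ∈ O ω <;> simp [a, subset_erase, h1, insert_subset_iff]
  rw [Fintype.expect_eq_sum_div_card, h4, div_le_iff₀ hc]
  have h5 : ρ / β ≤ (ρ / β) ^ Y.card :=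
    le_self_pow₀ ((one_le_div hβ).2 hρ) h2.card_pos.ne'
  calc _ ≤ ρ ^ Y.card * (ρ / β) * (β * Fintype.card Ω) := by
        refine h3.trans (le_of_eq ?_)
        field_simp
        ring
    _ ≤ ρ ^ Y.card * (ρ / β) ^ Y.card * Fintype.card {ω // z ∈ O ω} := by gcongr
    _ = _ := by rw [mul_div_assoc, mul_pow]

end

lemma spread_pi {J : Type} [Fintype J] [DecidableEq J] {Z Ω : J → Type} [∀ j, Fintype (Z j)]
    [∀ j, DecidableEq (Z j)] [∀ j, Fintype (Ω j)] [∀ j, Nonempty (Ω j)]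
    {O : ∀ j, Ω j → Finset (Z j)} {ρ : ℝ} {v : ℕ} (h : ∀ j, Spread (O j) ρ v) :
    Spread (fun ω : ∀ j, Ω j => univ.sigma fun j => O j (ω j)) ρ v := by
  intro Y hY
  obtain ⟨y, rfl⟩ : ∃ y : ∀ j, Finset (Z j), Y = univ.sigma y :=
    ⟨fun j => univ.filter fun z => ⟨j, z⟩ ∈ Y, by ext ⟨j, z⟩; simp⟩
  have e : ∀ ω : ∀ j, Ω j, (if univ.sigma y ⊆ univ.sigma fun j => O j (ω j) then 1 else 0 : ℝ) =
      ∏ j, if y j ⊆ O j (ω j) then 1 else 0 := fun ω => by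
    rw [prod_boole]
    have : (univ.sigma y ⊆ univ.sigma fun j => O j (ω j)) ↔ ∀ j ∈ univ, y j ⊆ O j (ω j) := by
      refine ⟨fun a j _ z hz => ?_, fun a x hx => ?_⟩
      · simpa using a (mem_sigma.2 ⟨mem_univ _, hz⟩ : (⟨j, z⟩ : Σ j, Z j) ∈ _)
      · exact mem_sigma.2 ⟨mem_univ _, a _ (mem_univ _) (mem_sigma.1 hx).2⟩
    by_cases b : ∀ j ∈ univ, y j ⊆ O j (ω j)
    · rw [if_pos b, if_pos (this.2 b)]
    · rw [if_neg b, if_neg fun c => b (this.1 c)]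
  simp only [e]
  rw [Fintype.expect_eq_sum_div_card,
    ← Fintype.prod_sum fun j (x : Ω j) => (if y j ⊆ O j x then 1 else 0 : ℝ), Fintype.card_pi,
    Nat.cast_prod, ← prod_div_distrib, card_sigma, ← prod_pow_eq_pow_sum]
  rw [card_sigma] at hY
  refine prod_le_prod (fun j _ => div_nonneg (sum_nonneg fun _ _ => by split_ifs <;> norm_num)
    (Nat.cast_nonneg _)) fun j _ => ?_
  rw [← Fintype.expect_eq_sum_div_card]
  exact h j _ ((single_le_sum (f := fun j => (y j).card) (fun _ _ => Nat.zero_le _)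
    (mem_univ j)).trans hY)

lemma exists_d {w : ℕ} (hw : 22 ≤ w) :
    ∃ d : ℕ, (w : ℝ) ^ 80 ≤ (21 / 10) ^ d ∧ 2 ^ d ≤ 2 * w ^ 75 := by
  have ex : ∃ d : ℕ, (w : ℝ) ^ 80 ≤ (21 / 10) ^ d :=
    (pow_unbounded_of_one_lt _ (by norm_num)).imp fun _ h => h.le
  classical
  refine ⟨Nat.find ex, Nat.find_spec ex, ?_⟩
  rcases h : Nat.find ex with _ | d
  · have : 0 < w ^ 75 := pow_pos (by omega) _
    omega
  have h1 := not_le.1 (Nat.find_min ex (m := d) (by omega))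
  have h2 : ((2 : ℝ) ^ d) ^ 16 ≤ ((w : ℝ) ^ 75) ^ 16 := by
    calc ((2 : ℝ) ^ d) ^ 16 = (2 ^ 16) ^ d := pow_right_comm _ _ _
      _ ≤ ((21 / 10) ^ 15) ^ d := pow_le_pow_left₀ (by norm_num) (by norm_num) _
      _ = ((21 / 10) ^ d) ^ 15 := pow_right_comm _ _ _
      _ ≤ ((w : ℝ) ^ 80) ^ 15 := pow_le_pow_left₀ (by positivity) h1.le _
      _ = _ := by ring
  have h3 := le_of_pow_le_pow_left₀ (by norm_num) (by positivity) h2
  have h4 : 2 ^ d ≤ w ^ 75 := by exact_mod_cast h3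
  rw [pow_succ]
  omega

lemma rho_le {D K w d : ℕ} (h : D ≤ K * (2 * w)) (hd : (K : ℝ) ≤ (21 / 10) ^ d) :
    (2 / 3 : ℝ) ^ (20 * w) * Real.exp (5 / 7 * (10 / 21) ^ d * D) ≤ (3 / 4) ^ (20 * w) := by
  have e1 : Real.exp (1 / 10) ≤ 9 / 8 := by
    have := Real.exp_bound_div_one_sub_of_interval (x := 1 / 10) (by norm_num) (by norm_num)
    linarith
  have w0 : (0 : ℝ) ≤ w := Nat.cast_nonneg _
  have e2 : (D : ℝ) ≤ (21 / 10) ^ d * (2 * w) := by
    have : (D : ℝ) ≤ K * (2 * w) := by exact_mod_cast h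
    exact this.trans (mul_le_mul_of_nonneg_right hd (by positivity))
  have e3 : (10 / 21 : ℝ) ^ d * (21 / 10) ^ d = 1 := by rw [← mul_pow]; norm_num
  have e4 : 5 / 7 * (10 / 21 : ℝ) ^ d * D ≤ (20 * w : ℕ) * (1 / 10) := by
    refine (mul_le_mul_of_nonneg_left e2 (by positivity)).trans ?_
    rw [mul_assoc, ← mul_assoc ((10 / 21 : ℝ) ^ d), e3]
    push_cast
    linarith
  generalize 20 * w = B at *
  calc _ ≤ (2 / 3 : ℝ) ^ B * Real.exp (1 / 10) ^ B := by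
        rw [← Real.exp_nat_mul]
        exact mul_le_mul_of_nonneg_left (Real.exp_le_exp.2 e4) (by positivity)
    _ ≤ _ := by
        rw [← mul_pow]
        exact pow_le_pow_left₀ (by positivity) (by linarith) _

lemma card_bound {n w d g c : ℕ} (hw : w = n + 22) (hd2 : 2 ^ d ≤ 2 * w ^ 75)
    (hG : g ≤ 2 ^ (w ^ 3 * (2 * w + 1) * (20 * w * 2 ^ d))) (hc : c ≤ g ^ (2 * (n + 1))) :
    c ^ 2 * 2 ^ (4 * n + 15) ≤ 2 ^ (w ^ 3 * w ^ 80) := by
  have ww : 22 * 22 ≤ w * w := Nat.mul_le_mul (by omega) (by omega)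
  have a1 : w ^ 3 * (2 * w + 1) * (20 * w * 2 ^ d) * (2 * (n + 1)) * 2 ≤
      w ^ 3 * (3 * w) * (20 * w * (2 * w ^ 75)) * (2 * w) * 2 :=
    Nat.mul_le_mul_right _ (Nat.mul_le_mul (Nat.mul_le_mul (Nat.mul_le_mul_left _ (by omega))
      (Nat.mul_le_mul_left _ hd2)) (by omega))
  have a2 : 4 * n + 15 ≤ 4 * w ^ 81 :=
    le_trans (by omega) (Nat.mul_le_mul_left 4 (Nat.le_self_pow (by norm_num) w))
  have a3 : w ^ 3 * (3 * w) * (20 * w * (2 * w ^ 75)) * (2 * w) * 2 + 4 * w ^ 81 ≤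
      w ^ 3 * w ^ 80 := by
    calc _ = 22 * 22 * w ^ 81 := by ring
      _ ≤ w * w * w ^ 81 := Nat.mul_le_mul_right _ ww
      _ = _ := by ring
  have a4 := (add_le_add a1 a2).trans a3
  generalize w ^ 3 * (2 * w + 1) * (20 * w * 2 ^ d) = E at *
  generalize w ^ 3 * w ^ 80 = N at *
  generalize 2 * (n + 1) = L at *
  generalize 4 * n + 15 = F at *
  calc _ ≤ ((2 ^ E) ^ L) ^ 2 * 2 ^ F :=
        Nat.mul_le_mul_right _ (Nat.pow_le_pow_left (hc.trans (Nat.pow_le_pow_left hG _)) _)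
    _ = 2 ^ (E * L * 2 + F) := by rw [← pow_mul, ← pow_mul, ← pow_add, mul_assoc]
    _ ≤ _ := Nat.pow_le_pow_right (by norm_num) a4

theorem kit (n : ℕ) : ∃ (Gs : ℕ → Finset (Fin (NN n) → Bool)) (Ω : Type) (_ : Fintype Ω)
    (_ : Nonempty Ω) (O : Ω → Finset (Fin (NN n) → Bool)), Supp (Gs 0) univ ∧
      (∀ i R ω, Supp (Gs i) R → Supp (Gs (i + 1)) (R ∩ O ω)) ∧ (∀ ω, (fun _ => false) ∈ O ω) ∧
      Spread (fun ω => (O ω).erase fun _ => false) ((1 / 2) ^ (4 * n + 17)) (2 ^ (2 * n + 4)) ∧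
      (Gs (2 * (n + 1))).card ^ 2 * 2 ^ (4 * n + 15) ≤ 2 ^ NN n := by
  obtain ⟨w, hw⟩ : ∃ w, w = n + 22 := ⟨_, rfl⟩
  have e : NN n = w ^ 3 * w ^ 80 := by rw [NN, hw]; ring
  rw [e]
  have w22 : 22 ≤ w := by omega
  obtain ⟨d, hd1, hd2⟩ := exists_d w22
  have ww : 22 * 22 ≤ w * w := Nat.mul_le_mul w22 w22
  have w3 : 22 * 22 * w ≤ w ^ 3 := by
    rw [show w ^ 3 = w * w * w by ring]
    exact Nat.mul_le_mul_right _ ww
  have w80 : 2 ≤ w ^ 80 := le_trans (by omega) (Nat.le_self_pow (by norm_num) w)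
  obtain ⟨G, Ω, _, _, O, hG, hO, hup, hlo⟩ := exists_family (w ^ 3) (w ^ 80) (2 * w) (20 * w) d
    (by omega) w80 (by omega) (by
      calc 20 * w * 3 ^ d ≤ 20 * w * (2 ^ d) ^ 2 := by
            rw [pow_right_comm]
            exact Nat.mul_le_mul_left _ (Nat.pow_le_pow_left (by norm_num) _)
        _ ≤ 20 * w * (2 * w ^ 75) ^ 2 := Nat.mul_le_mul_left _ (Nat.pow_le_pow_left hd2 _)
        _ = 80 * w ^ 151 := by ring
        _ ≤ 2 ^ 7 * (2 ^ w) ^ 151 :=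
            Nat.mul_le_mul (by norm_num) (Nat.pow_le_pow_left Nat.lt_two_pow_self.le _)
        _ ≤ _ := by
            rw [← pow_mul, ← pow_add]
            exact Nat.pow_le_pow_right (by norm_num) (by omega))
  have h1 := rho_le (D := (w ^ 80 - 1) * (2 * w)) (K := w ^ 80) (w := w) (d := d)
    (Nat.mul_le_mul_right _ (Nat.sub_le _ _)) (by exact_mod_cast hd1)
  have hs : Spread O ((3 / 4) ^ (20 * w)) (2 ^ (2 * n + 4) + 1) :=
    Spread.mono hup (by positivity) h1 (by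
      have : 2 ^ (2 * n + 4 + 1) ≤ 2 ^ (2 * w) := Nat.pow_le_pow_right (by norm_num) (by omega)
      have : 0 < 2 ^ (2 * n + 4) := by positivity
      omega)
  obtain ⟨hne, hc⟩ := spread_cond hs (fun _ => false) (by positivity)
    (pow_le_pow_left₀ (by norm_num) (by norm_num) _) (hlo _)
  obtain ⟨Gs, g0, g1⟩ : ∃ Gs : ℕ → Finset (Fin (w ^ 3 * w ^ 80) → Bool),
      Gs 0 = {fun _ => false} ∧ ∀ i, Gs (i + 1) = image₂ xr (Gs i) G :=
    ⟨fun i => Nat.rec {fun _ => false} (fun _ H => image₂ xr H G) i, rfl, fun _ => rfl⟩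
  have hGs : ∀ i, (Gs i).card ≤ G.card ^ i := fun i => by
    induction i with
    | zero => rw [g0, card_singleton, pow_zero]
    | succ i ih =>
      rw [pow_succ G.card, g1]
      exact (card_image₂_le _ _ _).trans (Nat.mul_le_mul_right _ ih)
  refine ⟨Gs, _, inferInstance, hne, fun ω => O ω.1, by rw [g0]; exact supp_univ,
    fun i R ω h => by rw [g1]; exact supp_inter h (hO _), fun ω => ω.2,
    hc.mono (by positivity) ?_ le_rfl, ?_⟩
  · rw [← mul_pow, ← div_pow, show 20 * w = 5 * (4 * w) by ring, pow_mul]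
    exact (pow_le_pow_left₀ (by positivity) (by norm_num) _).trans
      (pow_le_pow_of_le_one (by norm_num) (by norm_num) (by omega))
  · exact card_bound hw hd2 hG (hGs (2 * (n + 1)))

end Pool.Agent.MP_36f78e_lc.H6
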