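import Mathlib
import Pool.Agent.MP_36f78e_lc.H24.Cl.Hyb
import Pool.Agent.MP_36f78e_lc.H6.Defs
import Pool.Agent.MP_36f78e_lc.H6.Cert

/-!
One level: two restrictions give small certificates for the answers to all short verifiers.
-/

set_option linter.unusedSectionVars false

namespace Pool.Agent.MP_36f78e_lc.H6

open Finset Pool.Agent.MP_36f78e_lc.H24 Pool.Agent.MP_36f78e_lc.H24.Cl Pool.Agent.MP_36f78e_lc.H44
open scoped BigOperators

lemma run_short {α : Type} [Fintype α] [DecidableEq α] {A A' : List Bool → Bool} {n : ℕ}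
    (h : ∀ s, 2 * s.length ≤ n → A s = A' s) (gs : List (Gate α))
    (hg : ∀ l t, Sum.inr (l, t) ∈ gs → 2 * l.length ≤ n) (v : (α → Bool) → ℂ) :
    run A gs v = run A' gs v := by
  induction gs generalizing v with
  | nil => rfl
  | cons g gs ih =>
    rw [run_cons, run_cons, ih fun l t a => hg l t (List.mem_cons_of_mem _ a)]
    congr 1
    rcases g with U | ⟨l, t⟩
    · rfl
    · funext y
      simp only [act]
      rw [h _ (by simpa using hg l t List.mem_cons_self)]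

lemma acc_short {V : Verifier} {n : ℕ} (hV : Small V n) {A A' : List Bool → Bool}
    (h : ∀ s, 2 * s.length ≤ n → A s = A' s) (w : (Fin V.p → Bool) → ℂ) :
    V.accProb A w = V.accProb A' w := by
  rw [accProb_eq, accProb_eq, run_short h _ hV.2.2]

lemma Ans.congr {V : Verifier} {n : ℕ} (hV : Small V n) {A A' : List Bool → Bool}
    (h : ∀ s, 2 * s.length ≤ n → A s = A' s) {b : Bool} (ha : Ans V A' b) : Ans V A b := by
  unfold Ans at ha ⊢
  simpa only [acc_short hV h] using ha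

lemma Small.mono {V : Verifier} {n n' : ℕ} (hV : Small V n) (h : n ≤ n') : Small V n' :=
  ⟨hV.1.trans h, hV.2.1.trans h, fun l t a => (hV.2.2 l t a).trans h⟩

lemma gap3 {V : Verifier} (hV : V.Valid) {A A1 A2 : List Bool → Bool} {D : Finset (List Bool)}
    (h1 : ∀ s ∉ D, A s = A1 s) (h2 : ∀ s ∉ D, A s = A2 s) (w : (Fin V.p → Bool) → ℂ)
    (a1 : 2 / 3 ≤ V.accProb A1 w) (a2 : V.accProb A2 w ≤ 1 / 3) :
    1 / (576 * ((V.queries : ℝ) + 1)) ≤ ∑ s ∈ D, mass A V.gates (init V.q w) s := by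
  have hT : (0 : ℝ) ≤ V.queries := Nat.cast_nonneg _
  have g := gap V.acc _ _ a2 a1
  have b1 := hybrid h1 (ε := 1 / (24 * ((V.queries : ℝ) + 1))) (by positivity) V.gates hV.gv
    (init V.q w)
  have b2 := hybrid h2 (ε := 1 / (24 * ((V.queries : ℝ) + 1))) (by positivity) V.gates hV.gv
    (init V.q w)
  have t := nr_sub_le (run A V.gates (init V.q w) - run A1 V.gates (init V.q w))
    (run A V.gates (init V.q w) - run A2 V.gates (init V.q w))
  rw [sub_sub_sub_cancel_left] at t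
  have h4 : 1 / (24 * ((V.queries : ℝ) + 1)) * V.queries ≤ 1 / 24 := by
    rw [div_mul_eq_mul_div, div_le_div_iff₀ (by positivity) (by positivity)]
    linarith
  rw [div_le_iff₀ (by positivity)]
  rw [div_div_eq_mul_div, div_one] at b1 b2
  have g' : 1 / 6 ≤ nr (run A2 V.gates (init V.q w) - run A1 V.gates (init V.q w)) := g
  unfold Verifier.queries at *
  linarith

variable {ι Ω : Type} [Fintype ι] [DecidableEq ι] [Fintype Ω] [Nonempty Ω]

lemma weights {V : Verifier} (hV : V.Valid) {M D : ℕ} (hM : Small V M)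
    {orc : Finset ι → List Bool → Bool} (hc : ∀ s, Cert D fun u => orc u s) (y : Fin V.p → Bool) :
    ∃ μ : Finset ι → ι → ℝ, (∀ h i, 0 ≤ μ h i) ∧ (∀ h, ∑ i, μ h i ≤ 1) ∧
      ∀ h x x' E : Finset ι, 2 / 3 ≤ V.accProb (orc x) (Pi.single y 1) →
        V.accProb (orc x') (Pi.single y 1) ≤ 1 / 3 → x \ E = h \ E → x' \ E = h \ E →
        1 / (576 * ((M : ℝ) + 1) * (M * D + 1)) ≤ ∑ i ∈ E, μ h i := by
  classical
  choose C hC1 hC2 using hc
  obtain ⟨S, hS⟩ : ∃ S : Finset (List Bool), ∀ s, s ∈ S ↔ s.length ≤ M :=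
    ⟨(List.finite_length_le Bool M).toFinset, fun s => by simp⟩
  let tr : Finset ι → List Bool → Bool := fun u s => if s ∈ S then orc u s else false
  have htr : ∀ u w, V.accProb (orc u) w = V.accProb (tr u) w := fun u =>
    acc_short hM fun s hs => (if_pos ((hS s).2 (by omega))).symm
  let m : Finset ι → List Bool → ℝ := fun h s =>
    mass (tr h) V.gates (init V.q (Pi.single y 1)) s
  have m0 : ∀ h s, 0 ≤ m h s := fun _ _ => mass_nonneg _ _ _ _
  have hq : (V.queries : ℝ) ≤ M := by exact_mod_cast hM.2.1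
  have hK : (0 : ℝ) < M * D + 1 := by positivity
  have sw : ∀ h (E : Finset ι), ∑ i ∈ E, (∑ s ∈ S, if i ∈ C s h then m h s else 0) / (M * D + 1) =
      (∑ s ∈ S, (E ∩ C s h).card * m h s) / (M * D + 1) := fun h E => by
    rw [← sum_div, sum_comm]
    congr 1
    exact sum_congr rfl fun s _ => by rw [sum_ite_mem, sum_const, nsmul_eq_mul]
  refine ⟨fun h i => (∑ s ∈ S, if i ∈ C s h then m h s else 0) / (M * D + 1), fun h i =>
    div_nonneg (sum_nonneg fun s _ => by split_ifs; exacts [m0 _ _, le_rfl]) hK.le, fun h => ?_,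
    fun h x x' E a1 a2 e1 e2 => ?_⟩
  · rw [sw, div_le_one hK]
    have := sum_mass_basis hV (tr h) y S
    calc _ ≤ ∑ s ∈ S, D * m h s := sum_le_sum fun s _ => mul_le_mul_of_nonneg_right
          (by rw [univ_inter]; exact_mod_cast hC1 s h) (m0 _ _)
      _ ≤ D * M := by
          rw [← mul_sum]
          exact mul_le_mul_of_nonneg_left (this.trans hq) (Nat.cast_nonneg _)
      _ ≤ _ := by linarith
  · rw [htr] at a1 a2
    have ag : ∀ z, z \ E = h \ E → ∀ s ∉ S.filter (fun s => (E ∩ C s h).Nonempty),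
        tr h s = tr z s := fun z e s hs => by
      by_cases b : s ∈ S
      · simp only [tr, if_pos b]
        refine (hC2 s h z (agree.2 fun i hi => agree'.1 e i fun c => hs ?_)).symm
        exact mem_filter.2 ⟨b, i, mem_inter.2 ⟨c, hi⟩⟩
      · simp only [tr, if_neg b]
    have g := gap3 hV (ag x e1) (ag x' e2) _ a1 a2
    rw [sw, ← div_div]
    refine div_le_div_of_nonneg_right (le_trans ?_ (g.trans ?_)) hK.le
    · exact one_div_le_one_div_of_le (by positivity) (by linarith)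
    · rw [sum_filter]
      refine sum_le_sum fun s _ => ?_
      split_ifs with b
      · exact le_mul_of_one_le_left (m0 _ _) (by exact_mod_cast b.card_pos)
      · exact mul_nonneg (Nat.cast_nonneg _) (m0 _ _)

lemma exists_lt_EJ {p : ℝ} (h0 : 0 ≤ p) (h1 : p ≤ 1) {F : Finset ι → ℝ} (h : EJ p F < 1) :
    ∃ J, F J < 1 := by
  by_contra hc
  push Not at hc
  have := EJ_mono h0 h1 hc
  rw [EJ_const] at this
  linarith

lemma not_of_sum_lt {κ : Type} {K : Finset κ} {P : κ → Prop} [DecidablePred P]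
    (h : ∑ c ∈ K, (if P c then 1 else 0 : ℝ) < 1) : ∀ c ∈ K, ¬ P c := fun c hc hp => by
  have := single_le_sum (f := fun c => (if P c then 1 else 0 : ℝ))
    (fun _ _ => by split_ifs <;> norm_num) hc
  simp only [if_pos hp] at this
  linarith

theorem level {κ : Type} (K : Finset κ) (V : κ → Verifier) {M D k v : ℕ}
    (hV : ∀ c ∈ K, (V c).Valid ∧ Small (V c) M) (hK : K.card ≤ 2 ^ M) (hk : k = 2 * M + 2)
    {orc : Finset ι → List Bool → Bool} (hc : ∀ s, Cert D fun u => orc u s) {O : Ω → Finset ι}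
    {ρ : ℝ} (hρ : 0 ≤ ρ) (hO : Spread O ρ v) (hv : k * k ≤ v)
    (h1 : 4 * ρ ≤ 1 / (576 * ((M : ℝ) + 1) * (M * D + 1))) (h2 : (1 + 8 * ρ) ^ k ≤ 3 / 2)
    (ν : Ω → Ω → Finset ι → ℝ) (hν0 : ∀ a b J, 0 ≤ ν a b J)
    (hν : ∀ a b, EJ (1 / 4) (ν a b) ≤ 1 / 2) :
    ∃ ω1 ω2 J, ν ω1 ω2 J < 1 ∧ ∃ a : κ → Finset ι → Bool, ∀ c ∈ K, Cert (k * k) (a c) ∧
      ∀ u, Ans (V c) (orc (res (O ω2) J u ∩ O ω1)) (a c u) := by
  classical
  have hk1 : 1 ≤ k := by omega
  have hkk : k ≤ k * k := Nat.le_mul_of_pos_right k hk1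
  have hK' : (K.card : ℝ) ≤ 2 ^ M := by exact_mod_cast hK
  have e4 : (2 : ℝ) ^ M * (2 ^ M * (1 / 2) ^ k) = 1 / 4 := by
    rw [hk, pow_add, pow_mul', sq, ← mul_assoc, ← mul_assoc, mul_mul_mul_comm, ← mul_pow]
    norm_num
  let F : (c : κ) → (Fin (V c).p → Bool) → Finset ι → ℝ := fun c y u =>
    (V c).accProb (orc u) (Pi.single y 1)
  obtain ⟨ω1, -, hω1⟩ : ∃ ω ∈ (univ : Finset Ω), ∑ c ∈ K, ∑ y,
      (if BadQ (F c y) k (O ω) then 1 else 0 : ℝ) < 1 := by
    refine exists_lt_of_expect_lt univ_nonempty ?_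
    rw [expect_sum_comm]
    refine lt_of_le_of_lt (sum_le_card_nsmul _ _ (2 ^ M * (1 / 2) ^ k) fun c hcK => ?_) ?_
    · rw [expect_sum_comm]
      refine (sum_le_card_nsmul _ _ ((1 / 2) ^ k) fun y _ => ?_).trans ?_
      · obtain ⟨μ, m0, m1, m2⟩ := weights (hV c hcK).1 (hV c hcK).2 hc y
        exact badQ_le (F c y) m0 m1 (by positivity) m2 hρ hO (hkk.trans hv) h1
      · rw [nsmul_eq_mul]
        refine mul_le_mul_of_nonneg_right ?_ (by positivity)
        simp only [card_univ, Fintype.card_pi, Fintype.card_bool, prod_const, Fintype.card_fin,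
          Nat.cast_pow, Nat.cast_ofNat]
        exact pow_le_pow_right₀ (by norm_num) (hV c hcK).2.1
    · rw [nsmul_eq_mul]
      have := mul_le_mul_of_nonneg_right hK' (by positivity : (0 : ℝ) ≤ 2 ^ M * (1 / 2) ^ k)
      linarith
  have g1 : ∀ c ∈ K, ∀ y, ¬ BadQ (F c y) k (O ω1) := fun c hcK y =>
    not_of_sum_lt (lt_of_le_of_lt (single_le_sum (f := fun c => ∑ y,
      (if BadQ (F c y) k (O ω1) then 1 else 0 : ℝ))
      (fun _ _ => sum_nonneg fun _ _ => by split_ifs <;> norm_num) hcK) hω1) y (mem_univ _)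
  let f : κ → Finset ι → Prop := fun c u => ∃ (y : Fin (V c).p → Bool) (C : Finset ι),
    C.card ≤ k ∧ ∀ u', u' ∩ C = u ∩ C → 1 / 3 < F c y (u' ∩ O ω1)
  have hf : ∀ c a, f c a → ∃ C : Finset ι, C.card ≤ k ∧ ∀ x, x ∩ C = a ∩ C → f c x := by
    rintro c a ⟨y, C, b1, b2⟩
    exact ⟨C, b1, fun x hx => ⟨y, C, b1, fun u' hu => b2 u' (hu.trans hx)⟩⟩
  obtain ⟨ω2, -, hω2⟩ : ∃ ω ∈ (univ : Finset Ω), EJ (1 / 4) (fun J => ν ω1 ω J + ∑ c ∈ K,
      (if BadS (f c) (k * k) (O ω) J then 1 else 0 : ℝ)) < 1 := by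
    refine exists_lt_of_expect_lt univ_nonempty ?_
    simp only [EJ_add, EJ_sum]
    rw [expect_add_distrib, expect_sum_comm]
    have a1 : 𝔼 ω, EJ (1 / 4) (ν ω1 ω) ≤ 1 / 2 := expect_le univ_nonempty fun ω _ => hν _ _
    have a2 := sum_le_card_nsmul K _ ((1 / 2 : ℝ) ^ k) fun c _ =>
      badS_le (p := 1 / 4) (by norm_num) (by norm_num) (hf c) hρ hO hv
        (by rwa [show 2 * ρ / (1 / 4) = 8 * ρ by ring])
    rw [nsmul_eq_mul] at a2
    have a3 := mul_le_mul_of_nonneg_right hK' (by positivity : (0 : ℝ) ≤ (1 / 2) ^ k)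
    have a4 := le_mul_of_one_le_left (by positivity : (0 : ℝ) ≤ 2 ^ M * (1 / 2) ^ k)
      (one_le_pow₀ (n := M) (by norm_num : (1 : ℝ) ≤ 2))
    linarith
  obtain ⟨J, hJ⟩ := exists_lt_EJ (by norm_num) (by norm_num) hω2
  have s0 : 0 ≤ ∑ c ∈ K, (if BadS (f c) (k * k) (O ω2) J then 1 else 0 : ℝ) :=
    sum_nonneg fun _ _ => by split_ifs <;> norm_num
  have g2 := not_of_sum_lt (lt_of_le_of_lt (le_add_of_nonneg_left (hν0 ω1 ω2 J)) hJ)
  refine ⟨ω1, ω2, J, by linarith, fun c u => decide (f c (res (O ω2) J u)), fun c hcK =>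
    ⟨fun u => ?_, fun u => ⟨?_, fun b => ?_⟩⟩⟩
  · by_cases b : f c (res (O ω2) J u)
    · obtain ⟨C, b1, b2⟩ := hf c _ b
      exact ⟨C, b1.trans hkk, fun u' hu => by simp [b, b2 _ (res_agree _ _ hu)]⟩
    · have := g2 c hcK
      unfold BadS at this
      push Not at this
      obtain ⟨C, b1, b2⟩ := this u b
      exact ⟨C, b1, fun u' hu => by simp [b, b2 u' hu]⟩
  · rintro ⟨y, hy⟩
    have := g1 c hcK y
    unfold BadQ at this
    push Not at this
    obtain ⟨C, b1, b2⟩ := this _ hy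
    exact decide_eq_true ⟨y, C, b1, b2⟩
  · refine decide_eq_false ?_
    rintro ⟨y, C, -, b2⟩
    exact absurd (b y) (not_le.2 (b2 _ rfl))

end Pool.Agent.MP_36f78e_lc.H6
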