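import Mathlib
import Pool.Agent.MP_36f78e_lc.H6.Kit
import Pool.Agent.MP_36f78e_lc.H6.Level

/-!
The variables, the base oracle and the invariant of the construction.
-/

set_option linter.unusedSectionVars false

namespace Pool.Agent.MP_36f78e_lc.H6

open Finset Pool.Agent.MP_36f78e_lc.H24.Cl Pool.Agent.MP_36f78e_lc.H44
open scoped BigOperators

lemma NN_mono {a b : ℕ} (h : a ≤ b) : NN a ≤ NN b := Nat.pow_le_pow_left (by omega) _

attribute [local irreducible] NN

/-- The data attached to one input length. -/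
structure Kit (n : ℕ) where
  Gs : ℕ → Finset (Fin (NN n) → Bool)
  Ω : Type
  fin : Fintype Ω
  ne : Nonempty Ω
  O : Ω → Finset (Fin (NN n) → Bool)
  s0 : Supp (Gs 0) univ
  s1 : ∀ i R ω, Supp (Gs i) R → Supp (Gs (i + 1)) (R ∩ O ω)
  z0 : ∀ ω, (fun _ => false) ∈ O ω
  sp : Spread (fun ω => (O ω).erase fun _ => false) ((1 / 2) ^ (4 * n + 17)) (2 ^ (2 * n + 4))
  cd : (Gs (2 * (n + 1))).card ^ 2 * 2 ^ (4 * n + 15) ≤ 2 ^ NN n

attribute [instance] Kit.fin Kit.ne

lemma kit_nonempty (n : ℕ) : Nonempty (Kit n) := by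
  obtain ⟨Gs, Ω, _, _, O, h0, h1, h2, h3, h4⟩ := kit n
  exact ⟨⟨Gs, Ω, _, inferInstance, O, h0, h1, h2, h3, h4⟩⟩

/-- The final Fourier support. -/
def Kit.G {n : ℕ} (κ : Kit n) : Finset (Fin (NN n) → Bool) := κ.Gs (2 * (n + 1))

lemma lin_le (n : ℕ) : 24 * ((n : ℝ) + 2) ≤ 2 ^ (n + 6) := by
  have : (n : ℝ) + 1 ≤ 2 ^ n := by exact_mod_cast Nat.lt_two_pow_self
  have h : (0 : ℝ) ≤ n := Nat.cast_nonneg _
  rw [pow_add]
  linarith

lemma Kit.cd1 {n : ℕ} (κ : Kit n) :
    (κ.G.card : ℝ) ^ 2 / 2 ^ NN n * (24 * ((n : ℝ) + 2)) ^ 2 ≤ (1 / 2) ^ (2 * n + 3) := by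
  have h : (κ.G.card : ℝ) ^ 2 * 2 ^ (4 * n + 15) ≤ 2 ^ NN n := by exact_mod_cast κ.cd
  have h1 := pow_le_pow_left₀ (by positivity) (lin_le n) 2
  rw [one_div, inv_pow, ← one_div, div_mul_eq_mul_div, div_le_div_iff₀ (by positivity)
    (by positivity), one_mul]
  refine le_trans ?_ h
  rw [mul_assoc]
  refine mul_le_mul_of_nonneg_left ((mul_le_mul_of_nonneg_right h1 (by positivity)).trans
    (le_of_eq ?_)) (by positivity)
  ring

lemma Kit.cd2 {n c : ℕ} (κ : Kit n) (hc : c ≤ 2 ^ (3 * n + 5)) :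
    (c : ℝ) * (κ.G.card / 2 ^ NN n) ≤ 1 / (24 * ((n : ℝ) + 2)) := by
  have h : (κ.G.card : ℝ) ^ 2 * 2 ^ (4 * n + 15) ≤ 2 ^ NN n := by exact_mod_cast κ.cd
  have h0 : (κ.G.card : ℝ) ≤ (κ.G.card : ℝ) ^ 2 := by
    exact_mod_cast Nat.le_self_pow (by norm_num) _
  have h1 : (c : ℝ) ≤ 2 ^ (3 * n + 5) := by exact_mod_cast hc
  have h2 := lin_le n
  rw [← mul_div_assoc, div_le_div_iff₀ (by positivity) (by positivity), one_mul]
  refine le_trans ?_ h
  calc _ ≤ 2 ^ (3 * n + 5) * (κ.G.card : ℝ) ^ 2 * 2 ^ (n + 6) := by gcongr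
    _ = (κ.G.card : ℝ) ^ 2 * 2 ^ (4 * n + 11) := by ring
    _ ≤ _ := mul_le_mul_of_nonneg_left (pow_le_pow_right₀ (by norm_num) (by omega)) (by positivity)

/-- The strings of length less than `M`. -/
def strs : ℕ → Finset (List Bool)
  | 0 => ∅
  | M + 1 => insert [] ((strs M).image (List.cons true) ∪ (strs M).image (List.cons false))

lemma mem_strs {M : ℕ} {s : List Bool} : s ∈ strs M ↔ s.length < M := by
  induction M generalizing s with
  | zero => simp [strs]
  | succ M ih =>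
    rcases s with _ | ⟨b, s⟩
    · simp [strs]
    · cases b <;> simp [strs, ih]

lemma card_strs (M : ℕ) : (strs M).card + 1 ≤ 2 ^ M := by
  induction M with
  | zero => simp [strs]
  | succ M ih =>
    have h1 := card_insert_le [] ((strs M).image (List.cons true) ∪ (strs M).image (List.cons false))
    have h2 := card_union_le ((strs M).image (List.cons true)) ((strs M).image (List.cons false))
    have h3 := card_image_le (s := strs M) (f := List.cons true)
    have h4 := card_image_le (s := strs M) (f := List.cons false)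
    rw [strs, pow_succ]
    omega

/-- The instances: an input and a side. -/
abbrev Ix (H : ℕ) : Type := Σ n : Fin (H + 1), (Fin n → Bool) × Bool

/-- The variables. -/
abbrev Vr (H : ℕ) : Type := Σ j : Ix H, Fin (NN j.1) → Bool

variable {H : ℕ}

/-- The string attached to a variable. -/
def enc (t : Bool) (i : Vr H) : List Bool :=
  false :: i.1.2.2 :: (List.ofFn i.1.2.1 ++ t :: List.ofFn i.2)

lemma enc_inj {t t' : Bool} {i i' : Vr H} (h : enc t i = enc t' i') : t = t' ∧ i = i' := by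
  obtain ⟨⟨n, c, b⟩, z⟩ := i
  obtain ⟨⟨n', c', b'⟩, z'⟩ := i'
  have hl := congrArg List.length h
  simp only [enc, List.length_cons, List.length_append, List.length_ofFn] at hl
  have mono : ∀ a b : ℕ, a < b → NN a ≤ NN b := fun a b h => NN_mono h.le
  have e : n = n' := by
    refine Fin.ext ?_
    rcases lt_trichotomy (n : ℕ) n' with a | a | a
    · have := mono _ _ a
      omega
    · exact a
    · have := mono _ _ a
      omega
  subst e
  simp only [enc, List.cons.injEq, true_and] at h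
  obtain ⟨h1, h2⟩ := List.append_inj h.2 (by simp)
  rw [List.cons.injEq] at h2
  rw [h.1, List.ofFn_injective h1, List.ofFn_injective h2.2]
  exact ⟨h2.1, rfl⟩

/-- The part of a set of variables that belongs to one instance. -/
def sl (S : Finset (Vr H)) (j : Ix H) : Finset (Fin (NN j.1) → Bool) :=
  univ.filter fun z => (⟨j, z⟩ : Vr H) ∈ S

lemma mem_sl {S : Finset (Vr H)} {j : Ix H} {z : Fin (NN j.1) → Bool} :
    z ∈ sl S j ↔ (⟨j, z⟩ : Vr H) ∈ S := by simp [sl]

lemma card_sl (S : Finset (Vr H)) (j : Ix H) : (sl S j).card ≤ S.card :=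
  card_le_card_of_injOn (fun z => (⟨j, z⟩ : Vr H)) (fun _ hz => mem_sl.1 hz)
    fun _ _ _ _ h => by simpa using h

lemma sl_dead {R R' : Finset (Vr H)} {j : Ix H} (h : sl R j = ∅) (hR : R' ⊆ R) : sl R' j = ∅ :=
  eq_empty_of_forall_notMem fun z hz => by simpa [h] using mem_sl.2 (hR (mem_sl.1 hz))

lemma sl_dead' {R S T : Finset (Vr H)} {j : Ix H} (h : sl R j = ∅) (hT : T ⊆ R) :
    sl (S ∪ T) j = sl S j := by
  ext z
  have : (⟨j, z⟩ : Vr H) ∉ T := fun q => by simpa [h] using mem_sl.2 (hT q)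
  simp [mem_sl, this]

variable (κ : ∀ n, Kit n)

/-- The oracle before any code is answered. -/
def base (X : Finset (Vr H)) (s : List Bool) : Bool :=
  decide ((∃ i ∈ X, enc false i = s) ∨ ∃ i : Vr H, i.2 ∈ (κ i.1.1).G ∧ enc true i = s)

lemma base_false (X : Finset (Vr H)) (i : Vr H) : base κ X (enc false i) = true ↔ i ∈ X := by
  rw [base, decide_eq_true_iff]
  refine ⟨?_, fun h => Or.inl ⟨i, h, rfl⟩⟩
  rintro (⟨i', h1, h2⟩ | ⟨i', -, h2⟩)
  · exact (enc_inj h2).2 ▸ h1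
  · exact absurd (enc_inj h2).1 (by simp)

lemma base_true (X : Finset (Vr H)) (i : Vr H) :
    base κ X (enc true i) = true ↔ i.2 ∈ (κ i.1.1).G := by
  rw [base, decide_eq_true_iff]
  refine ⟨?_, fun h => Or.inr ⟨i, h, rfl⟩⟩
  rintro (⟨i', -, h2⟩ | ⟨i', h1, h2⟩)
  · exact absurd (enc_inj h2).1 (by simp)
  · exact (enc_inj h2).2 ▸ h1

lemma base_cert (s : List Bool) : Cert 1 fun X : Finset (Vr H) => base κ X s := by
  intro u
  by_cases h : ∃ i : Vr H, enc false i = s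
  · obtain ⟨i, rfl⟩ := h
    refine ⟨{i}, by simp, fun u' hu => ?_⟩
    rw [Bool.eq_iff_iff, base_false, base_false]
    exact agree.1 hu i (mem_singleton_self i)
  · refine ⟨∅, by simp, fun u' _ => decide_eq_decide.2 (or_congr_left ?_)⟩
    exact ⟨fun ⟨i, _, a⟩ => absurd ⟨i, a⟩ h, fun ⟨i, _, a⟩ => absurd ⟨i, a⟩ h⟩

lemma Cert.mono {ι : Type} [Fintype ι] [DecidableEq ι] {D D' : ℕ} {f : Finset ι → Bool}
    (h : Cert D f) (hD : D ≤ D') : Cert D' f :=
  fun u => (h u).imp fun _ hC => ⟨hC.1.trans hD, hC.2⟩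

/-- An instance that can still become positive or negative. -/
def Alive {n : ℕ} (κ : Kit n) (g : ℕ) (t : ℝ) (R S : Finset (Fin (NN n) → Bool)) : Prop :=
  ∃ R0, Supp (κ.Gs g) R0 ∧ (fun _ => false) ∈ R0 ∧ (fun _ => false) ∈ S ∧ R ⊆ R0 ∧ R0 ⊆ R ∪ S ∧
    ∀ a, qf κ.G S a ≤ 1 / 4 * qf κ.G R0ᶜ a + t / (24 * ((n : ℝ) + 2)) * n2 κ.G a

/-- A positive instance. -/
def Pos {n : ℕ} (κ : Kit n) (S : Finset (Fin (NN n) → Bool)) : Prop :=
  ∃ R0 : Finset (Fin (NN n) → Bool), R0.Nonempty ∧ R0 ⊆ S ∧ Supp κ.G R0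

/-- A negative instance. -/
def Neg {n : ℕ} (κ : Kit n) (S : Finset (Fin (NN n) → Bool)) : Prop :=
  ∀ a, qf κ.G S a ≤ 1 / 3 * n2 κ.G a

variable (D : List Bool → Verifier) (E : List Bool → List Bool)

/-- The invariant. -/
structure St (i L g : ℕ) (t : ℝ) (R S : Finset (Vr H)) (orc : Finset (Vr H) → List Bool → Bool) :
    Prop where
  cert : ∀ s, Cert (2 ^ (2 * i + 4)) fun u => orc u s
  zero : ∀ u s, orc u (false :: s) = base κ (u ∩ R ∪ S) (false :: s)
  code : ∀ u c, 2 * c.length + 1 < L → Ans (D c) (orc u) (orc u (true :: c))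
  alive : ∀ j : Ix H, i ≤ j.1 → Alive (κ j.1) g t (sl R j) (sl S j)
  dead : ∀ j : Ix H, j.1 < i → sl R j = ∅ ∧ ∃ a, (∀ u, orc u (E (List.ofFn j.2.1)) = a) ∧
    (j.2.2 = a → Pos (κ j.1) (sl S j)) ∧ (j.2.2 = !a → Neg (κ j.1) (sl S j))

theorem st_zero : ∃ R S orc, St (H := H) κ D E 0 (2 ^ 0) 0 1 R S orc := by
  refine ⟨univ, univ.filter fun i => i.2 = fun _ => false, fun u => base κ (u ∩ univ ∪ _),
    fun s => ((base_cert κ s).comp _ fun u u' C h => agree.2 fun i hi => ?_).mono (by norm_num),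
    fun _ _ => rfl, fun u c h => by omega, fun j _ => ?_, fun j h => by omega⟩
  · simp only [mem_union, mem_inter, agree.1 h i hi]
  · refine ⟨univ, (κ _).s0, mem_univ _, by simp [mem_sl], subset_univ _,
      fun z _ => by simp [mem_sl], fun a => ?_⟩
    have e : sl (univ.filter fun i : Vr H => i.2 = fun _ => false) j = {fun _ => false} := by
      ext z
      simp [mem_sl]
    rw [e]
    refine qf_small.trans ((mul_le_mul_of_nonneg_right ((κ _).cd2 ?_) n2_nonneg).trans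
      (le_add_of_nonneg_left ?_))
    · rw [card_singleton]
      exact Nat.one_le_two_pow
    · simp [qf]

end Pool.Agent.MP_36f78e_lc.H6
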