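import Mathlib
import Pool.Agent.MP_36f78e_lc.H6.Base

/-!
The two steps of the construction.
-/

set_option linter.unusedSectionVars false

namespace Pool.Agent.MP_36f78e_lc.H6

open Finset Pool.Agent.MP_36f78e_lc.H24.Cl Pool.Agent.MP_36f78e_lc.H44
open scoped BigOperators

attribute [local irreducible] NN

variable {H : ℕ} {κ : ∀ n, Kit n} {D : List Bool → Verifier} {E : List Bool → List Bool}

lemma par1 {M : ℝ} (hM : 1 ≤ M) :
    4 * (1 / (2 ^ 17 * M ^ 4)) ≤ 1 / (576 * (M + 1) * (M * (16 * M ^ 2) + 1)) := by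
  have h3 : 1 ≤ M ^ 3 := one_le_pow₀ hM
  rw [mul_one_div, div_le_div_iff₀ (by positivity) (by positivity)]
  have : (M + 1) * (M * (16 * M ^ 2) + 1) ≤ (2 * M) * (17 * M ^ 3) :=
    mul_le_mul (by linarith) (by nlinarith) (by positivity) (by positivity)
  nlinarith [pow_pos (by linarith : 0 < M) 4]

lemma par2 {M : ℝ} (hM : 1 ≤ M) {k : ℕ} (hk : (k : ℝ) ≤ 4 * M) :
    (1 + 8 * (1 / (2 ^ 17 * M ^ 4))) ^ k ≤ 3 / 2 := by
  have h4 : M ≤ M ^ 4 := le_self_pow₀ hM (by norm_num)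
  have e1 : Real.exp (1 / 3) ≤ 3 / 2 := by
    have := Real.exp_bound_div_one_sub_of_interval (x := 1 / 3) (by norm_num) (by norm_num)
    linarith
  calc _ ≤ Real.exp (8 * (1 / (2 ^ 17 * M ^ 4))) ^ k :=
        pow_le_pow_left₀ (by positivity) (by rw [add_comm]; exact Real.add_one_le_exp _) _
    _ ≤ Real.exp (1 / 3) := by
        rw [← Real.exp_nat_mul, Real.exp_le_exp, mul_one_div, ← mul_div_assoc,
          div_le_div_iff₀ (by positivity) (by positivity)]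
        linarith
    _ ≤ _ := e1

lemma sum_ix : ∑ j : Ix H, (1 / 2 : ℝ) ^ (2 * (j.1 : ℕ) + 3) ≤ 1 / 2 := by
  rw [Fintype.sum_sigma]
  have e : ∀ n : Fin (H + 1), ∑ _y : (Fin n → Bool) × Bool, (1 / 2 : ℝ) ^ (2 * (n : ℕ) + 3) =
      1 / 4 * (1 / 2) ^ (n : ℕ) := fun n => by
    have : (2 : ℝ) ^ (n : ℕ) * (1 / 2) ^ (n : ℕ) = 1 := by rw [← mul_pow]; norm_num
    simp only [sum_const, card_univ, Fintype.card_prod, Fintype.card_pi, Fintype.card_bool,
      prod_const, Fintype.card_fin, nsmul_eq_mul, Nat.cast_mul, Nat.cast_pow, Nat.cast_ofNat]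
    rw [pow_add, two_mul, pow_add]
    linear_combination 1 / 4 * (1 / 2 : ℝ) ^ (n : ℕ) * this
  simp only [e]
  rw [← mul_sum, Fin.sum_univ_eq_sum_range (fun n => (1 / 2 : ℝ) ^ n)]
  have := sum_geometric_two_le (H + 1)
  linarith

theorem st_level (hD : ∀ c, (D c).Valid ∧ Small (D c) c.length)
    (hE : ∀ x, (E x).length ≤ 2 ^ x.length) {i g : ℕ} {t : ℝ} {R S : Finset (Vr H)}
    {orc : Finset (Vr H) → List Bool → Bool} (h : St κ D E i (2 ^ i) g t R S orc) :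
    ∃ R' S' orc', St (H := H) κ D E i (2 ^ (i + 1)) (g + 2) (t + 1) R' S' orc' := by
  classical
  let O1 : ∀ j : Ix H, (κ j.1).Ω → Finset (Fin (NN j.1) → Bool) := fun j x =>
    if i ≤ j.1 then ((κ j.1).O x).erase fun _ => false else ∅
  have hO1 : ∀ j, Spread (O1 j) (1 / (2 ^ 17 * ((2 ^ i : ℕ) : ℝ) ^ 4)) (2 ^ (2 * i + 4)) := by
    intro j
    by_cases a : i ≤ j.1
    · simp only [O1, if_pos a]
      refine (κ _).sp.mono (by positivity) ?_ (Nat.pow_le_pow_right (by norm_num) (by omega))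
      refine (pow_le_pow_of_le_one (by norm_num) (by norm_num)
        (by omega : 4 * i + 17 ≤ _)).trans (le_of_eq ?_)
      push_cast
      rw [one_div_pow]
      ring
    · simp only [O1, if_neg a]
      exact spread_empty (by positivity) _
  obtain ⟨O, hO⟩ : ∃ O : (∀ j : Ix H, (κ j.1).Ω) → Finset (Vr H),
      O = fun ω => univ.sigma fun j => O1 j (ω j) := ⟨_, rfl⟩
  have mO : ∀ ω (j : Ix H) z, i ≤ j.1 →
      ((⟨j, z⟩ : Vr H) ∈ O ω ↔ (z ≠ fun _ => false) ∧ z ∈ (κ j.1).O (ω j)) := fun ω j z a => by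
    simp [hO, O1, a]
  obtain ⟨K, hK⟩ : ∃ K : Finset (List Bool),
      K = (strs (2 ^ i)).filter fun c => 2 ^ i ≤ 2 * c.length + 1 := ⟨_, rfl⟩
  have mK : ∀ c, c ∈ K ↔ c.length < 2 ^ i ∧ 2 ^ i ≤ 2 * c.length + 1 := fun c => by
    simp [hK, mem_strs]
  have M1 : (1 : ℝ) ≤ (2 ^ i : ℕ) := by exact_mod_cast Nat.one_le_two_pow
  have M2 : 1 ≤ 2 ^ i := Nat.one_le_two_pow
  have kk : (2 * 2 ^ i + 2) * (2 * 2 ^ i + 2) ≤ 2 ^ (2 * i + 4) := by
    calc _ ≤ (4 * 2 ^ i) * (4 * 2 ^ i) := Nat.mul_le_mul (by omega) (by omega)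
      _ = _ := by ring
  obtain ⟨ω1, ω2, J, hν, a, ha⟩ := level K D (M := 2 ^ i) (k := 2 * 2 ^ i + 2)
    (fun c hc => ⟨(hD c).1, (hD c).2.mono ((mK c).1 hc).1.le⟩)
    (by rw [hK]; exact (card_filter_le _ _).trans ((Nat.le_succ _).trans (card_strs _))) rfl h.cert
    (O := O) (by positivity) (hO ▸ spread_pi hO1) kk
    ((par1 M1).trans (le_of_eq (by push_cast; ring))) (par2 M1 (by push_cast at M1 ⊢; linarith))
    (fun a b J => ∑ j : Ix H, (24 * (((j.1 : ℕ) : ℝ) + 2)) ^ 2 *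
      frob (κ j.1).G (sl ((R ∩ O a) \ O b) j) (fun z => (⟨j, z⟩ : Vr H)) J)
    (fun a b J => sum_nonneg fun j _ => mul_nonneg (sq_nonneg _) (frob_nonneg _ _))
    (fun a b => by
      rw [EJ_sum]
      refine (sum_le_sum fun j _ => ?_).trans (sum_ix (H := H))
      rw [EJ_mul, mul_comm]
      exact (mul_le_mul_of_nonneg_right (EJ_frob fun _ _ h => by simpa using h)
        (sq_nonneg _)).trans (κ _).cd1)
  obtain ⟨orc', ho⟩ : ∃ orc' : Finset (Vr H) → List Bool → Bool, ∀ u s, orc' u s =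
      if s.head? = some true ∧ s.tail ∈ K then a s.tail u else orc (res (O ω2) J u ∩ O ω1) s :=
    ⟨_, fun _ _ => rfl⟩
  have old : ∀ u s, 2 * s.length ≤ 2 ^ i → orc' u s = orc (res (O ω2) J u ∩ O ω1) s := by
    intro u s hs
    rw [ho, if_neg]
    rintro ⟨b1, b2⟩
    rcases s with _ | ⟨b, s⟩
    · simp at b1
    · have := ((mK _).1 b2).2
      simp only [List.tail_cons, List.length_cons] at this hs
      omega
  refine ⟨R ∩ O ω1 ∩ O ω2, S ∪ J ∩ ((R ∩ O ω1) \ O ω2), orc', fun s => ?_, fun u s => ?_,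
    fun u c hc => ?_, fun j hj => ?_, fun j hn => ?_⟩
  · simp only [ho]
    split_ifs with b
    · exact (ha _ b.2).1.mono kk
    · exact (h.cert s).comp _ fun u u' C e => inter_agree _ (res_agree _ _ e)
  · rw [ho, if_neg (by simp), h.zero]
    congr 1
    ext x
    simp only [mem_union, mem_inter, mem_sdiff, mem_res]
    tauto
  · have hc' : c.length < 2 ^ i := by rw [pow_succ] at hc; omega
    refine Ans.congr (hD c).2 (fun s hs => old u s (by omega)) ?_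
    by_cases b : c ∈ K
    · rw [ho, if_pos ⟨rfl, b⟩]
      exact (ha c b).2 u
    · rw [ho, if_neg fun b' => b b'.2]
      exact h.code _ c (by by_contra b'; exact b ((mK c).2 ⟨hc', by omega⟩))
  · obtain ⟨R0, b1, b2, b3, b4, b5, b6⟩ := h.alive j hj
    refine ⟨R0 ∩ (κ _).O (ω1 j) ∩ (κ _).O (ω2 j), (κ _).s1 _ _ _ ((κ _).s1 _ _ _ b1),
      by simp [b2, (κ _).z0], by simp [mem_sl, mem_sl.1 b3], fun z hz => ?_, fun z hz => ?_,
      fun x => ?_⟩
    · simp only [mem_sl, mem_inter, mO _ _ _ hj] at hz ⊢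
      exact ⟨⟨b4 (mem_sl.2 hz.1.1), hz.1.2.2⟩, hz.2.2⟩
    · simp only [mem_inter] at hz
      have := b5 hz.1.1
      simp only [mem_sl, mem_inter, mem_union, mO _ _ _ hj] at this ⊢
      by_cases z0 : z = fun _ => false
      · exact Or.inr (Or.inl (z0 ▸ mem_sl.1 b3))
      · tauto
    · have f1 : frob (κ j.1).G (sl ((R ∩ O ω1) \ O ω2) j) (fun z => (⟨j, z⟩ : Vr H)) J ≤
          (1 / (24 * (((j.1 : ℕ) : ℝ) + 2))) ^ 2 := by
        have := (single_le_sum (f := fun j : Ix H => (24 * (((j.1 : ℕ) : ℝ) + 2)) ^ 2 *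
          frob (κ j.1).G (sl ((R ∩ O ω1) \ O ω2) j) (fun z => (⟨j, z⟩ : Vr H)) J)
          (fun j _ => mul_nonneg (sq_nonneg _) (frob_nonneg _ _)) (mem_univ j)).trans hν.le
        rwa [one_div_pow, le_div_iff₀' (by positivity)]
      have f2 := qf_noise (a := x) (by positivity) f1
      have f3 : sl (S ∪ J ∩ ((R ∩ O ω1) \ O ω2)) j = sl S j ∪
          (sl ((R ∩ O ω1) \ O ω2) j).filter fun z => (⟨j, z⟩ : Vr H) ∈ J := by
        ext z
        simp only [mem_sl, mem_union, mem_inter, mem_filter]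
        tauto
      have f4 : qf (κ j.1).G R0ᶜ x + qf (κ j.1).G (sl ((R ∩ O ω1) \ O ω2) j) x ≤
          qf (κ j.1).G (R0 ∩ (κ _).O (ω1 j) ∩ (κ _).O (ω2 j))ᶜ x := by
        rw [qf, qf, ← sum_union (disjoint_left.2 fun z a b => mem_compl.1 a
          (b4 (mem_sl.2 (mem_inter.1 (mem_sdiff.1 (mem_sl.1 b)).1).1)))]
        refine qf_mono fun z hz => ?_
        simp only [mem_union, mem_compl, mem_sl, mem_sdiff, mem_inter, mO _ _ _ hj] at hz ⊢
        tauto
      have f5 := qf_union (G := (κ j.1).G) (a := x) (sl S j)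
        ((sl ((R ∩ O ω1) \ O ω2) j).filter fun z => (⟨j, z⟩ : Vr H) ∈ J)
      have f6 := b6 x
      rw [f3, add_div, add_mul]
      linarith
  · obtain ⟨b1, b, b2, b3⟩ := h.dead j hn
    refine ⟨sl_dead b1 (inter_subset_left.trans inter_subset_left), b, fun u => ?_, ?_⟩
    · rw [old u _ ?_, b2]
      have q1 := hE (List.ofFn j.2.1)
      rw [List.length_ofFn] at q1
      have q2 : 2 ^ ((j.1 : ℕ) + 1) ≤ 2 ^ i := Nat.pow_le_pow_right (by norm_num) hn
      rw [pow_succ] at q2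
      omega
    · rwa [sl_dead' b1 (inter_subset_right.trans (sdiff_subset.trans inter_subset_left))]

theorem st_kill {i L : ℕ} {R S : Finset (Vr H)} {orc : Finset (Vr H) → List Bool → Bool}
    (h : St κ D E i L (2 * (i + 1)) (2 * i + 2) R S orc) :
    ∃ R' S' orc', St (H := H) κ D E (i + 1) L (2 * (i + 1)) (2 * (i + 1 : ℕ) + 1) R' S' orc' := by
  classical
  choose C hC1 hC2 using fun s => h.cert s univ
  obtain ⟨P, hP⟩ : ∃ P : Finset (Vr H), P = (strs (i + 1)).biUnion fun x => C (E x) := ⟨_, rfl⟩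
  have cP : P.card ≤ 2 ^ (3 * i + 5) := by
    rw [hP]
    refine (card_biUnion_le_card_mul _ _ _ fun x _ => hC1 _).trans ?_
    calc _ ≤ 2 ^ (i + 1) * 2 ^ (2 * i + 4) :=
          Nat.mul_le_mul_right _ ((Nat.le_succ _).trans (card_strs _))
      _ = _ := by ring
  have qP : ∀ j : Ix H, i ≤ j.1 → ∀ x, qf (κ j.1).G (sl P j) x ≤
      1 / (24 * (((j.1 : ℕ) : ℝ) + 2)) * n2 (κ j.1).G x := fun j hj x =>
    qf_small.trans (mul_le_mul_of_nonneg_right ((κ _).cd2 ((card_sl _ _).trans (cP.trans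
      (Nat.pow_le_pow_right (by norm_num) (by omega))))) n2_nonneg)
  obtain ⟨Dd, hDd⟩ : ∃ Dd : Finset (Vr H), ∀ x, x ∈ Dd ↔ (x.1.1 : ℕ) = i :=
    ⟨univ.filter fun x => (x.1.1 : ℕ) = i, fun x => by simp⟩
  obtain ⟨Y, hY⟩ : ∃ Y : Finset (Vr H), ∀ x, x ∈ Y ↔
      (x.1.1 : ℕ) = i ∧ x.1.2.2 = orc univ (E (List.ofFn x.1.2.1)) :=
    ⟨univ.filter fun x => (x.1.1 : ℕ) = i ∧ x.1.2.2 = orc univ (E (List.ofFn x.1.2.1)),
      fun x => by simp⟩
  have form : ∀ (j : Ix H) (R0 : Finset (Fin (NN j.1) → Bool)) x, i ≤ j.1 →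
      (∀ z, (⟨j, z⟩ : Vr H) ∉ Y) → qf (κ j.1).G (sl S j) x ≤ 1 / 4 * qf (κ j.1).G R0ᶜ x +
        (2 * i + 2) / (24 * (((j.1 : ℕ) : ℝ) + 2)) * n2 (κ j.1).G x →
      qf (κ j.1).G (sl (S ∪ (P ∪ Y) ∩ R) j) x ≤ 1 / 4 * qf (κ j.1).G R0ᶜ x +
        (2 * (i + 1 : ℕ) + 1) / (24 * (((j.1 : ℕ) : ℝ) + 2)) * n2 (κ j.1).G x := by
    intro j R0 x hj hy f1
    have f2 : qf (κ j.1).G (sl (S ∪ (P ∪ Y) ∩ R) j) x ≤ qf (κ j.1).G (sl S j ∪ sl P j) x :=
      qf_mono fun z hz => by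
        have := hy z
        simp only [mem_sl, mem_union, mem_inter] at hz ⊢
        tauto
    have f3 := qf_union (G := (κ j.1).G) (a := x) (sl S j) (sl P j)
    have f4 := qP j hj x
    rw [show (2 * (i + 1 : ℕ) + 1 : ℝ) = (2 * i + 2) + 1 by push_cast; ring, add_div, add_mul]
    linarith
  refine ⟨R \ Dd, S ∪ (P ∪ Y) ∩ R, fun u => orc (u \ Dd ∪ (P ∪ Y)), fun s => ?_, fun u s => ?_,
    fun u c hc => h.code _ c hc, fun j hj => ?_, fun j hn => ?_⟩
  · refine ((h.cert s).comp _ fun u u' C e => agree.2 fun x hx => ?_).mono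
      (Nat.pow_le_pow_right (by norm_num) (by omega))
    simp only [mem_union, mem_sdiff, agree.1 e x hx]
  · rw [h.zero]
    congr 1
    ext x
    simp only [mem_union, mem_inter, mem_sdiff]
    tauto
  · obtain ⟨R0, b1, b2, b3, b4, b5, b6⟩ := h.alive j (by omega)
    have d : ∀ z, (⟨j, z⟩ : Vr H) ∉ Dd := fun z q => by have := (hDd _).1 q; simp at this; omega
    refine ⟨R0, b1, b2, by simp [mem_sl, mem_sl.1 b3],
      fun z hz => b4 (mem_sl.2 (mem_sdiff.1 (mem_sl.1 hz)).1), fun z hz => ?_, fun x =>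
      form j R0 x (by omega) (fun z q => d z ((hDd _).2 ((hY _).1 q).1)) (b6 x)⟩
    have := b5 hz
    have := d z
    simp only [mem_sl, mem_union, mem_inter, mem_sdiff] at *
    tauto
  · rcases Nat.lt_succ_iff_lt_or_eq.1 hn with hn' | hn'
    · obtain ⟨b1, b, b2, b3⟩ := h.dead j hn'
      exact ⟨sl_dead b1 sdiff_subset, b, fun u => b2 _, by rwa [sl_dead' b1 inter_subset_right]⟩
    · obtain ⟨R0, b1, b2, -, -, b5, b6⟩ := h.alive j hn'.ge
      refine ⟨eq_empty_of_forall_notMem fun z hz =>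
        (mem_sdiff.1 (mem_sl.1 hz)).2 ((hDd _).2 hn'), orc univ (E (List.ofFn j.2.1)),
        fun u => hC2 _ _ (agree.2 fun x hx => ?_), fun e => ?_, fun e x => ?_⟩
      · have : x ∈ P := hP ▸ mem_biUnion.2 ⟨_, mem_strs.2 (by rw [List.length_ofFn]; omega), hx⟩
        simp [this]
      · have e1 : 2 * (i + 1) = 2 * ((j.1 : ℕ) + 1) := by omega
        refine ⟨R0, ⟨_, b2⟩, fun z hz => ?_, by rw [Kit.G, ← e1]; exact b1⟩
        have q1 := b5 hz
        have q2 := (hY ⟨j, z⟩).2 ⟨hn', e⟩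
        simp only [mem_sl, mem_union, mem_inter] at q1 ⊢
        tauto
      · have f1 := form j R0 x hn'.ge (fun z q => by
          have := ((hY _).1 q).2
          rw [← this] at e
          simp at e) (b6 x)
        have f2 : qf (κ j.1).G R0ᶜ x ≤ n2 (κ j.1).G x :=
          (qf_mono (subset_univ _)).trans qf_univ.le
        have f3 : (2 * (i + 1 : ℕ) + 1) / (24 * (((j.1 : ℕ) : ℝ) + 2)) * n2 (κ j.1).G x ≤
            1 / 12 * n2 (κ j.1).G x := by
          refine mul_le_mul_of_nonneg_right ?_ n2_nonneg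
          rw [hn', div_le_div_iff₀ (by positivity) (by positivity)]
          push_cast
          linarith
        linarith

theorem st_all (hD : ∀ c, (D c).Valid ∧ Small (D c) c.length)
    (hE : ∀ x, (E x).length ≤ 2 ^ x.length) (i : ℕ) :
    ∃ R S orc, St (H := H) κ D E i (2 ^ i) (2 * i) (2 * i + 1) R S orc := by
  induction i with
  | zero => simpa using st_zero κ D E
  | succ i ih =>
    obtain ⟨R, S, orc, h⟩ := ih
    obtain ⟨R', S', orc', h'⟩ := st_level hD hE h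
    rw [add_assoc, one_add_one_eq_two] at h'
    exact st_kill h'

end Pool.Agent.MP_36f78e_lc.H6
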