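import Mathlib
import Pool.Agent.MP_36f78e_lc.H6.Step

/-!
The finite construction and its limit.
-/

namespace Pool.Agent.MP_36f78e_lc.H6

open Finset Filter Pool.Agent.MP_36f78e_lc.H24.Cl

attribute [local irreducible] NN

/-- The side `a` of the input `x` is positive and the other side is negative. -/
def Side (A : List Bool → Bool) (x : List Bool) (a : Bool) : Prop :=
  (∃ S : Finset (Fin (NN x.length) → Bool), S.Nonempty ∧ tacc A a x (subsetState S) = 1) ∧
    ∀ w, IsState w → tacc A (!a) x w ≤ 1 / 3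

variable {D : List Bool → Verifier} {E : List Bool → List Bool}

theorem finite (hD : ∀ c, (D c).Valid ∧ Small (D c) c.length)
    (hE : ∀ x, (E x).length ≤ 2 ^ x.length) (H : ℕ) : ∃ A : List Bool → Bool,
      (∀ c, c.length < 2 ^ H → Ans (D c) A (A (true :: c))) ∧
        ∀ x, x.length ≤ H → Side A x (A (E x)) := by
  obtain ⟨κ⟩ : Nonempty (∀ n, Kit n) := ⟨fun n => (kit_nonempty n).some⟩
  obtain ⟨R, S, orc, h⟩ := st_all (H := H) (κ := κ) hD hE (H + 1)
  refine ⟨orc ∅, fun c hc => h.code _ c (by rw [pow_succ]; omega), fun x hx => ?_⟩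
  let j : Bool → Ix H := fun b => ⟨⟨x.length, Nat.lt_succ_of_le hx⟩, x.get, b⟩
  have e : ∀ b t z, orc ∅ (false :: b :: (x ++ t :: List.ofFn z)) =
      base κ S (enc t (⟨j b, z⟩ : Vr H)) := fun b t z => by
    rw [h.zero, empty_inter, empty_union]
    simp only [enc, j, List.ofFn_get]
  have ea : ∀ b w, tacc (orc ∅) b x w =
      ∑ e ∈ (κ (j b).1).G, ‖∑ z ∈ sl S (j b), Hn (NN (j b).1) e z * w z‖ ^ 2 := fun b w => by
    have e1 : part (fun s => orc ∅ (false :: b :: (x ++ s))) (NN x.length) true =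
        (κ (j b).1).G := by
      ext z
      rw [part, mem_filter, e, base_true]
      exact and_iff_right (mem_univ _)
    have e2 : part (fun s => orc ∅ (false :: b :: (x ++ s))) (NN x.length) false =
        sl S (j b) := by
      ext z
      rw [part, mem_filter, e, base_false]
      exact (and_iff_right (mem_univ _)).trans (mem_sl (j := j b)).symm
    rw [tacc, test_acc, e1, e2]
  have d : ∀ b, (b = orc ∅ (E x) → Pos (κ (j b).1) (sl S (j b))) ∧
      (b = !orc ∅ (E x) → Neg (κ (j b).1) (sl S (j b))) := fun b => by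
    obtain ⟨-, a, h1, h2⟩ := h.dead (j b) (Nat.lt_succ_of_le hx)
    have := h1 ∅
    simp only [j, List.ofFn_get] at this
    rw [this]
    exact h2
  obtain ⟨R0, r1, r2, r3⟩ := (d _).1 rfl
  exact ⟨⟨R0, r1, (ea _ _).trans (complete r1 r2 r3)⟩,
    fun w hw => (ea _ _).trans_le (sound ((d _).2 rfl) w hw)⟩

lemma limit (A : ℕ → List Bool → Bool) :
    ∃ B : List Bool → Bool, ∀ b H0, ∃ H, H0 ≤ H ∧ ∀ s, s.length ≤ b → B s = A H s := by
  have h1 : ∀ s, ∃ a, ∀ᶠ H in (hyperfilter ℕ : Filter ℕ), a = A H s := fun s => by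
    rcases (hyperfilter ℕ).em fun H => A H s = true with h | h
    · exact ⟨true, h.mono fun _ a => a.symm⟩
    · exact ⟨false, h.mono fun _ a => by simpa using a⟩
  choose B hB using h1
  refine ⟨B, fun b H0 => ?_⟩
  have h2 : ∀ᶠ H in (hyperfilter ℕ : Filter ℕ), H0 ≤ H :=
    hyperfilter_le_cofinite (by rw [Nat.cofinite_eq_atTop]; exact eventually_ge_atTop H0)
  have h3 := (eventually_all_finite (List.finite_length_le Bool b)).2 fun s _ => hB s
  exact (h2.and h3).exists

lemma acc_congr {A A' : List Bool → Bool} {x : List Bool}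
    (h : ∀ s, s.length ≤ x.length + NN x.length + 3 → A s = A' s) (b : Bool) :
    tacc A b x = tacc A' b x := by
  funext w
  have e : ∀ t, part (fun s => A (false :: b :: (x ++ s))) (NN x.length) t =
      part (fun s => A' (false :: b :: (x ++ s))) (NN x.length) t := fun t =>
    filter_congr fun z _ => by beta_reduce; rw [h _ (by simp; omega)]
  rw [tacc, tacc, test_acc, test_acc, e, e]

theorem main (hD : ∀ c, (D c).Valid ∧ Small (D c) c.length)
    (hE : ∀ x, (E x).length ≤ 2 ^ x.length) : ∃ A : List Bool → Bool,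
      (∀ c, Ans (D c) A (A (true :: c))) ∧ ∀ x, Side A x (A (E x)) := by
  choose A h1 h2 using finite hD hE
  obtain ⟨B, hB⟩ := limit A
  refine ⟨B, fun c => ?_, fun x => ?_⟩
  · obtain ⟨H, a1, a2⟩ := hB (c.length + 1) c.length
    rw [a2 _ (by simp)]
    exact Ans.congr (hD c).2 (fun s hs => a2 s (by omega))
      (h1 H c (lt_of_le_of_lt a1 Nat.lt_two_pow_self))
  · obtain ⟨H, a1, a2⟩ := hB (x.length + NN x.length + 3 + (E x).length) x.length
    have := h2 H x a1
    unfold Side at this ⊢
    rwa [a2 _ (by omega), acc_congr (fun s hs => a2 s (by omega)),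
      acc_congr (fun s hs => a2 s (by omega))]

end Pool.Agent.MP_36f78e_lc.H6
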